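import Pool.Agent.Lib.NF76.Dual1

set_option autoImplicit false

namespace Pool.Agent.NF76

open Finset

/-- Integer vectors with coordinates bounded by `X`. -/
noncomputable def box6 (X : ℕ) : Finset (Fin 6 → ℤ) := Fintype.piFinset fun _ => Icc (-(X : ℤ)) X

lemma mem_box6 {X : ℕ} {z : Fin 6 → ℤ} : z ∈ box6 X ↔ ∀ i, |z i| ≤ X := by
  simp [box6, abs_le]

/-- Pairs of multiples of `g`, the first nonzero. -/
noncomputable def prs (g X : ℕ) : Finset (ℤ × ℤ) :=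
  (Icc (-(X : ℤ)) X ×ˢ Icc (-(X : ℤ)) X).filter fun z => z.1 ≠ 0 ∧ (g : ℤ) ∣ z.1 ∧ (g : ℤ) ∣ z.2

lemma mem_prs {g X : ℕ} {x y : ℤ} :
    (x, y) ∈ prs g X ↔ |x| ≤ X ∧ |y| ≤ X ∧ x ≠ 0 ∧ (g : ℤ) ∣ x ∧ (g : ℤ) ∣ y := by
  simp [prs, abs_le, and_assoc]

lemma card_prs {g : ℕ} (hg : 0 < g) (X : ℕ) : g * (prs g X).card ≤ 9 * X ^ 2 := by
  by_cases hX : X < g
  · have : prs g X = ∅ := by
      refine eq_empty_of_forall_notMem fun z hz => ?_
      obtain ⟨h1, -, h2, h3, -⟩ := mem_prs.1 (show (z.1, z.2) ∈ _ from hz)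
      have := Int.le_of_dvd (abs_pos.2 h2) ((dvd_abs _ _).2 h3)
      omega
    simp [this]
  have hg' : (0 : ℤ) < g := by exact_mod_cast hg
  have key : ∀ x : ℤ, |x| ≤ X → (g : ℤ) ∣ x → x / g ∈ Icc (-((X / g : ℕ) : ℤ)) (X / g : ℕ) := by
    rintro x hx ⟨u, rfl⟩
    rw [Int.mul_ediv_cancel_left _ hg'.ne', mem_Icc, ← abs_le, Int.natCast_div,
      Int.le_ediv_iff_mul_le hg']
    rwa [abs_mul, abs_of_pos hg', mul_comm] at hx
  have h1 : (prs g X).card ≤ (Icc (-((X / g : ℕ) : ℤ)) (X / g : ℕ) ×ˢ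
      Icc (-((X / g : ℕ) : ℤ)) (X / g : ℕ)).card := by
    refine card_le_card_of_injOn (fun z => (z.1 / g, z.2 / g)) (fun z hz => ?_) ?_
    · obtain ⟨h1, h2, -, h3, h4⟩ := mem_prs.1 (show (z.1, z.2) ∈ _ from hz)
      exact mem_coe.2 (mem_product.2 ⟨key _ h1 h3, key _ h2 h4⟩)
    · intro z hz w hw h
      obtain ⟨-, -, -, h3, h4⟩ := mem_prs.1 (show (z.1, z.2) ∈ _ from hz)
      obtain ⟨-, -, -, h5, h6⟩ := mem_prs.1 (show (w.1, w.2) ∈ _ from hw)
      obtain ⟨h7, h8⟩ := Prod.ext_iff.1 h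
      exact Prod.ext ((Int.ediv_left_inj h3 h5).1 h7) ((Int.ediv_left_inj h4 h6).1 h8)
  have h2 : (Icc (-((X / g : ℕ) : ℤ)) (X / g : ℕ)).card = 2 * (X / g) + 1 := by
    rw [Int.card_Icc]; omega
  rw [card_product, h2] at h1
  have h3 : 1 ≤ X / g := Nat.div_pos (by omega) hg
  have h4 := Nat.mul_div_le X g
  have h5 := Nat.div_le_self X g
  generalize X / g = k at *
  calc g * (prs g X).card ≤ g * ((3 * k) * (3 * k)) :=
        Nat.mul_le_mul_left _ (h1.trans (Nat.mul_le_mul (by omega) (by omega)))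
    _ = 9 * ((g * k) * k) := by ring
    _ ≤ 9 * (X * X) := Nat.mul_le_mul_left _ (Nat.mul_le_mul h4 h5)
    _ = _ := by ring

/-- The three quadrics cutting out binary quintics with a fourfold root. -/
def Qd (z : Fin 6 → ℤ) : Prop :=
  z 0 * z 4 - 4 * z 1 * z 3 + 3 * z 2 ^ 2 = 0 ∧ z 0 * z 5 - 3 * z 1 * z 4 + 2 * z 2 * z 3 = 0 ∧
    z 1 * z 5 - 4 * z 2 * z 4 + 3 * z 3 ^ 2 = 0

lemma Qd.cov {z : Fin 6 → ℤ} (h : Qd z) :
    (z 0 ^ 2 * z 3 - 3 * z 0 * z 1 * z 2 + 2 * z 1 ^ 3) ^ 2 = 4 * (z 1 ^ 2 - z 0 * z 2) ^ 3 := by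
  obtain ⟨h1, h2, h3⟩ := h
  have hJ : z 0 * z 2 * z 4 + 2 * z 1 * z 2 * z 3 - z 0 * z 3 ^ 2 - z 1 ^ 2 * z 4 - z 2 ^ 3 = 0 := by
    have : 3 * (z 0 * z 2 * z 4 + 2 * z 1 * z 2 * z 3 - z 0 * z 3 ^ 2 - z 1 ^ 2 * z 4 - z 2 ^ 3)
      = 0 := by linear_combination -z 2 * h1 + z 1 * h2 - z 0 * h3
    omega
  linear_combination z 0 ^ 2 * (z 0 * z 2 - z 1 ^ 2) * h1 - z 0 ^ 3 * hJ

lemma Qd.sq {z : Fin 6 → ℤ} (h : Qd z) : ∃ u : ℤ, u * (2 * z 1 - u) = z 0 * z 2 := by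
  have h1 := h.cov
  generalize z 0 ^ 2 * z 3 - 3 * z 0 * z 1 * z 2 + 2 * z 1 ^ 3 = G at h1
  by_cases h0 : z 1 ^ 2 - z 0 * z 2 = 0
  · exact ⟨z 1, by linear_combination h0⟩
  · have h2 : (2 * (z 1 ^ 2 - z 0 * z 2)) ^ 2 ∣ G ^ 2 := ⟨z 1 ^ 2 - z 0 * z 2, by rw [h1]; ring⟩
    obtain ⟨s, hs⟩ := (Int.pow_dvd_pow_iff two_ne_zero).1 h2
    refine ⟨z 1 - s, ?_⟩
    have h3 : (2 * (z 1 ^ 2 - z 0 * z 2)) ^ 2 * s ^ 2 =
        (2 * (z 1 ^ 2 - z 0 * z 2)) ^ 2 * (z 1 ^ 2 - z 0 * z 2) := by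
      rw [← mul_pow, ← hs, h1]; ring
    have h4 := mul_left_cancel₀ (pow_ne_zero 2 (mul_ne_zero two_ne_zero h0)) h3
    linear_combination -h4

lemma Qd.ext {z w : Fin 6 → ℤ} (hz : Qd z) (hw : Qd w) (h : z 0 ≠ 0 ∨ z 1 ≠ 0) (h0 : z 0 = w 0)
    (h1 : z 1 = w 1) (h2 : z 2 = w 2)
    (hs : 0 ≤ z 0 ^ 2 * z 3 - 3 * z 0 * z 1 * z 2 + 2 * z 1 ^ 3 ↔
      0 ≤ w 0 ^ 2 * w 3 - 3 * w 0 * w 1 * w 2 + 2 * w 1 ^ 3) : z = w := by
  have a1 := hz.cov
  have a2 := hw.cov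
  obtain ⟨b1, b2, b3⟩ := hz
  obtain ⟨c1, c2, c3⟩ := hw
  simp only [← h0, ← h1, ← h2] at a2 c1 c2 c3 hs
  have key : z 3 = w 3 ∧ z 4 = w 4 ∧ z 5 = w 5 := by
    by_cases ha : z 0 = 0
    · have hb := h.resolve_left (not_not.2 ha)
      have h3 : z 3 = w 3 := mul_left_cancel₀ (mul_ne_zero four_ne_zero hb)
        (by linear_combination c1 - b1 + (z 4 - w 4) * ha)
      have h4 : z 4 = w 4 := mul_left_cancel₀ (mul_ne_zero three_ne_zero hb)
        (by linear_combination c2 - b2 + (z 5 - w 5) * ha + 2 * z 2 * h3)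
      exact ⟨h3, h4, mul_left_cancel₀ hb
        (by linear_combination b3 - c3 + 4 * z 2 * h4 - 3 * (z 3 + w 3) * h3)⟩
    · have h5 := sq_eq_sq_iff_eq_or_eq_neg.1 (a1.trans a2.symm)
      have h6 : z 0 ^ 2 * z 3 - 3 * z 0 * z 1 * z 2 + 2 * z 1 ^ 3 =
          z 0 ^ 2 * w 3 - 3 * z 0 * z 1 * z 2 + 2 * z 1 ^ 3 := by omega
      have h3 : z 3 = w 3 := mul_left_cancel₀ (pow_ne_zero 2 ha) (by linear_combination h6)
      have h4 : z 4 = w 4 := mul_left_cancel₀ ha (by linear_combination b1 - c1 + 4 * z 1 * h3)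
      exact ⟨h3, h4, mul_left_cancel₀ ha
        (by linear_combination b2 - c2 + 3 * z 1 * h4 - 2 * z 2 * h3)⟩
  funext i
  fin_cases i
  exacts [h0, h1, h2, key.1, key.2.1, key.2.2]

open Classical in
lemma card_Qd (g X τ : ℕ) (hτ : ∀ N ≤ X ^ 2, N.divisors.card ≤ τ) (hτ1 : 1 ≤ τ)
    (S : Finset (Fin 6 → ℤ)) (hS : ∀ z ∈ S, z ∈ box6 X ∧ Qd z ∧ (z 0 ≠ 0 ∨ z 1 ≠ 0) ∧
      (g : ℤ) ∣ z 0 ∧ (g : ℤ) ∣ z 1 ∧ (g : ℤ) ∣ z 2) : S.card ≤ 8 * τ * (prs g X).card := by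
  let σ : (Fin 6 → ℤ) → Bool := fun z =>
    decide (0 ≤ z 0 ^ 2 * z 3 - 3 * z 0 * z 1 * z 2 + 2 * z 1 ^ 3)
  have ext : ∀ z ∈ S, ∀ w ∈ S, z 0 = w 0 → z 1 = w 1 → z 2 = w 2 → σ z = σ w → z = w :=
    fun z hz w hw h0 h1 h2 h3 => (hS z hz).2.1.ext (hS w hw).2.1 (hS z hz).2.2.1 h0 h1 h2
      (decide_eq_decide.1 h3)
  have h1 : (S.filter fun z => z 0 = 0).card ≤ (prs g X ×ˢ (univ : Finset Bool)).card := by
    refine card_le_card_of_injOn (fun z => ((z 1, z 2), σ z)) (fun z hz => ?_) fun z hz w hw h => ?_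
    · obtain ⟨a1, a2⟩ := mem_filter.1 hz
      obtain ⟨b1, -, b2, -, b3, b4⟩ := hS z a1
      exact mem_coe.2 (mem_product.2 ⟨mem_prs.2 ⟨mem_box6.1 b1 _, mem_box6.1 b1 _,
        b2.resolve_left (not_not.2 a2), b3, b4⟩, mem_univ _⟩)
    · simp only [Prod.mk.injEq] at h
      exact ext z (mem_filter.1 hz).1 w (mem_filter.1 hw).1
        ((mem_filter.1 hz).2.trans (mem_filter.1 hw).2.symm) h.1.1 h.1.2 h.2
  have h2 : (S.filter fun z => z 0 ≠ 0 ∧ z 2 = 0).card ≤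
      (prs g X ×ˢ (univ : Finset Bool)).card := by
    refine card_le_card_of_injOn (fun z => ((z 0, z 1), σ z)) (fun z hz => ?_) fun z hz w hw h => ?_
    · obtain ⟨a1, a2⟩ := mem_filter.1 hz
      obtain ⟨b1, -, -, b2, b3, -⟩ := hS z a1
      exact mem_coe.2 (mem_product.2 ⟨mem_prs.2 ⟨mem_box6.1 b1 _, mem_box6.1 b1 _,
        a2.1, b2, b3⟩, mem_univ _⟩)
    · simp only [Prod.mk.injEq] at h
      exact ext z (mem_filter.1 hz).1 w (mem_filter.1 hw).1 h.1.1 h.1.2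
        ((mem_filter.1 hz).2.2.trans (mem_filter.1 hw).2.2.symm) h.2
  have h3 : (S.filter fun z => z 0 ≠ 0 ∧ z 2 ≠ 0).card ≤ (4 * τ) * (prs g X).card := by
    refine card_le_mul_card_image_of_maps_to (f := fun z => (z 0, z 2)) (fun z hz => ?_) _ ?_
    · obtain ⟨a1, a2⟩ := mem_filter.1 hz
      obtain ⟨b1, -, -, b2, -, b3⟩ := hS z a1
      exact mem_prs.2 ⟨mem_box6.1 b1 _, mem_box6.1 b1 _, a2.1, b2, b3⟩
    · rintro ⟨a, c⟩ hac
      obtain ⟨d1, d2, -⟩ := mem_prs.1 hac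
      have d3 : (a * c).divisors.card ≤ 2 * τ := by
        have : (a * c).natAbs ≤ X ^ 2 := by
          zify
          rw [abs_mul, sq]
          exact mul_le_mul d1 d2 (abs_nonneg _) (by positivity)
        have := hτ _ this
        simp only [Int.divisors, card_disjUnion, card_map]
        omega
      let u : (Fin 6 → ℤ) → ℤ := fun z => if h : Qd z then h.sq.choose else 0
      have hu : ∀ z ∈ S, u z * (2 * z 1 - u z) = z 0 * z 2 := fun z hz => by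
        simp only [u, dif_pos (hS z hz).2.1]
        exact (hS z hz).2.1.sq.choose_spec
      refine (card_le_card_of_injOn (t := (a * c).divisors ×ˢ (univ : Finset Bool))
        (fun z => (u z, σ z)) (fun z hz => ?_) fun z hz w hw h => ?_).trans ?_
      · obtain ⟨a1, a2⟩ := mem_filter.1 hz
        obtain ⟨a3, a4, a5⟩ := mem_filter.1 a1
        simp only [Prod.mk.injEq] at a2
        refine mem_coe.2 (mem_product.2 ⟨Int.mem_divisors.2 ⟨⟨2 * z 1 - u z, ?_⟩, ?_⟩, mem_univ _⟩)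
        · rw [hu z a3, a2.1, a2.2]
        · rw [← a2.1, ← a2.2]; exact mul_ne_zero a4 a5
      · obtain ⟨a1, a2⟩ := mem_filter.1 hz
        obtain ⟨a3, a4, a5⟩ := mem_filter.1 a1
        obtain ⟨b1, b2⟩ := mem_filter.1 hw
        simp only [Prod.mk.injEq] at a2 b2 h
        have e0 := a2.1.trans b2.1.symm
        have e2 := a2.2.trans b2.2.symm
        have c1 := hu z a3
        have c2 := hu w (mem_filter.1 b1).1
        rw [← h.1, ← e0, ← e2, ← c1] at c2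
        have c3 : u z ≠ 0 := left_ne_zero_of_mul (c1 ▸ mul_ne_zero a4 a5)
        have c4 := mul_left_cancel₀ c3 c2
        exact ext z a3 w (mem_filter.1 b1).1 e0 (by omega) e2 h.2
      · rw [card_product, card_univ, Fintype.card_bool]; omega
  have h4 : S ⊆ (S.filter fun z => z 0 = 0) ∪ ((S.filter fun z => z 0 ≠ 0 ∧ z 2 = 0) ∪
      (S.filter fun z => z 0 ≠ 0 ∧ z 2 ≠ 0)) := fun z hz => by
    simp only [mem_union, mem_filter]; tauto
  have h5 := (card_le_card h4).trans ((card_union_le _ _).trans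
    (Nat.add_le_add_left (card_union_le _ _) _))
  rw [card_product, card_univ, Fintype.card_bool] at h1 h2
  nlinarith [Nat.mul_le_mul_right (prs g X).card hτ1]

/-- The dual lattice relations. -/
def Rel {q : ℕ} (r : ZMod q) (z : Fin 6 → ℤ) : Prop :=
  (z 2 : ZMod q) = 2 * r * z 1 - r ^ 2 * z 0 ∧ (z 3 : ZMod q) = 3 * r ^ 2 * z 1 - 2 * r ^ 3 * z 0 ∧
    (z 4 : ZMod q) = 4 * r ^ 3 * z 1 - 3 * r ^ 4 * z 0 ∧
    (z 5 : ZMod q) = 5 * r ^ 4 * z 1 - 4 * r ^ 5 * z 0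

lemma eq_zero_of_small {q : ℕ} {t : ℤ} (h : (t : ZMod q) = 0) (h' : |t| < q) : t = 0 :=
  Int.eq_zero_of_abs_lt_dvd ((ZMod.intCast_zmod_eq_zero_iff_dvd t q).1 h) h'

lemma Rel.qd {q X : ℕ} {r : ZMod q} {z : Fin 6 → ℤ} (h : Rel r z) (hz : z ∈ box6 X)
    (hX : 8 * X ^ 2 < q) : Qd z := by
  obtain ⟨h2, h3, h4, h5⟩ := h
  have hb : ∀ i j, |z i * z j| ≤ (X : ℤ) ^ 2 := fun i j => by
    rw [abs_mul, sq]
    exact mul_le_mul (mem_box6.1 hz i) (mem_box6.1 hz j) (abs_nonneg _) (by positivity)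
  have hX' : 8 * (X : ℤ) ^ 2 < q := by exact_mod_cast hX
  refine ⟨eq_zero_of_small (q := q) ?_ ?_, eq_zero_of_small (q := q) ?_ ?_,
    eq_zero_of_small (q := q) ?_ ?_⟩
  · push_cast; rw [h2, h3, h4]; ring
  · have a := abs_le.1 (hb 0 4); have b := abs_le.1 (hb 1 3); have c := abs_le.1 (hb 2 2)
    rw [abs_lt]; constructor <;> nlinarith
  · push_cast; rw [h2, h3, h4, h5]; ring
  · have a := abs_le.1 (hb 0 5); have b := abs_le.1 (hb 1 4); have c := abs_le.1 (hb 2 3)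
    rw [abs_lt]; constructor <;> nlinarith
  · push_cast; rw [h2, h3, h4, h5]; ring
  · have a := abs_le.1 (hb 1 5); have b := abs_le.1 (hb 2 4); have c := abs_le.1 (hb 3 3)
    rw [abs_lt]; constructor <;> nlinarith

open Classical in
lemma card_rel {q : ℕ} [NeZero q] (hq : Squarefree q) (z : Fin 6 → ℤ) :
    (univ.filter fun r : ZMod q => Rel r z).card ≤ Nat.gcd q (Int.gcd (z 0) (z 1)) := by
  set g := Nat.gcd q (Int.gcd (z 0) (z 1)) with hg
  obtain ⟨k, hk⟩ : g ∣ q := Nat.gcd_dvd_left _ _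
  have hq0 := NeZero.ne q
  have hk0 : k ≠ 0 := by rintro rfl; exact hq0 hk
  have hks : Squarefree (k : ℤ) :=
    Int.squarefree_natCast.2 (hq.squarefree_of_dvd ⟨g, by rw [hk, mul_comm]⟩)
  rw [← card_range g]
  refine card_le_card_of_injOn (fun r => r.val / k) (fun r _ => ?_) fun r hr s hs h => ?_
  · refine mem_coe.2 (mem_range.2 (Nat.div_lt_of_lt_mul ?_))
    rw [mul_comm, ← hk]; exact r.val_lt
  · obtain ⟨a1, a2, -⟩ := (mem_filter.1 hr).2
    obtain ⟨b1, b2, -⟩ := (mem_filter.1 hs).2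
    have e0 : (z 0 : ZMod q) * (r - s) ^ 3 = 0 := by
      linear_combination (3 * (r - s) + 6 * s) * (b1 - a1) - 2 * (b2 - a2)
    have e1 : (z 1 : ZMod q) * (r - s) ^ 3 = 0 := by
      linear_combination s * e0 - (r - s) * ((b2 - a2) - (3 * s + 2 * (r - s)) * (b1 - a1))
    have e2 : ((Int.gcd (z 0) (z 1) : ℤ) : ZMod q) * (r - s) ^ 3 = 0 := by
      rw [Int.gcd_eq_gcd_ab]; push_cast
      linear_combination (Int.gcdA (z 0) (z 1) : ZMod q) * e0 + (Int.gcdB (z 0) (z 1) : ZMod q) * e1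
    have e3 : ((g : ℤ) : ZMod q) * (r - s) ^ 3 = 0 := by
      rw [hg, Nat.gcd_eq_gcd_ab]; push_cast at e2 ⊢
      rw [ZMod.natCast_self]
      linear_combination (Nat.gcdB q (Int.gcd (z 0) (z 1)) : ZMod q) * e2
    have e4 : (q : ℤ) ∣ (g : ℤ) * ((r.val : ℤ) - s.val) ^ 3 := by
      rw [← ZMod.intCast_zmod_eq_zero_iff_dvd]
      push_cast at e3 ⊢
      rw [ZMod.natCast_zmod_val, ZMod.natCast_zmod_val]
      exact e3
    have hg0 : (g : ℤ) ≠ 0 := by
      have : g ≠ 0 := by rintro h0; rw [h0, zero_mul] at hk; exact hq0 hk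
      exact_mod_cast this
    have e5 : (k : ℤ) ∣ (r.val : ℤ) - s.val := by
      refine (hks.dvd_pow_iff_dvd three_ne_zero).1 ((mul_dvd_mul_iff_left hg0).1 ?_)
      rwa [← Nat.cast_mul, ← hk]
    have e6 : r.val % k = s.val % k := ((Nat.modEq_iff_dvd).2 e5).symm
    apply ZMod.val_injective
    rw [← Nat.div_add_mod r.val k, ← Nat.div_add_mod s.val k, e6]
    exact congrArg (fun t => k * t + s.val % k) h

open Classical in
lemma sum_rel {q : ℕ} [NeZero q] (hq : Squarefree q) (X τ : ℕ) (hX : 8 * X ^ 2 < q)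
    (hτ : ∀ N ≤ q, N.divisors.card ≤ τ) :
    ∑ r : ZMod q, ((box6 X).filter (Rel r)).card ≤ 10 * τ ^ 2 * q := by
  have hq0 := NeZero.ne q
  have hτ1 : 1 ≤ τ := by simpa using hτ 1 (by omega)
  simp only [card_filter]
  rw [sum_comm]
  simp only [← card_filter]
  let S := (box6 X).filter fun z => (z 0 ≠ 0 ∨ z 1 ≠ 0) ∧ ∃ r : ZMod q, Rel r z
  have h1 : ∑ z ∈ box6 X, (univ.filter fun r : ZMod q => Rel r z).card ≤
      q + ∑ z ∈ S, Nat.gcd q (Int.gcd (z 0) (z 1)) := by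
    have h0 : (0 : Fin 6 → ℤ) ∈ box6 X := mem_box6.2 (by simp)
    rw [← add_sum_erase _ _ h0]
    refine add_le_add ((card_le_univ _).trans (ZMod.card q).le) ?_
    refine le_trans (sum_le_sum_of_ne_zero (t := S) fun z hz h => ?_)
      (sum_le_sum fun z _ => card_rel hq z)
    obtain ⟨r, hr⟩ := card_ne_zero.1 h
    obtain ⟨hz0, hz⟩ := mem_erase.1 hz
    refine mem_filter.2 ⟨hz, ?_, r, (mem_filter.1 hr).2⟩
    by_contra hn
    push Not at hn
    obtain ⟨a2, a3, a4, a5⟩ := (mem_filter.1 hr).2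
    simp only [hn.1, hn.2, Int.cast_zero, mul_zero, sub_self] at a2 a3 a4 a5
    have hb : ∀ i, |z i| < q := fun i => (mem_box6.1 hz i).trans_lt (by
      have : X < q := by nlinarith
      exact_mod_cast this)
    refine hz0 (funext fun i => ?_)
    fin_cases i
    exacts [hn.1, hn.2, eq_zero_of_small a2 (hb _), eq_zero_of_small a3 (hb _),
      eq_zero_of_small a4 (hb _), eq_zero_of_small a5 (hb _)]
  have h2 : ∑ z ∈ S, Nat.gcd q (Int.gcd (z 0) (z 1)) ≤ τ * (9 * τ * q) := by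
    rw [← sum_fiberwise_of_maps_to (t := q.divisors) (g := fun z => Nat.gcd q (Int.gcd (z 0) (z 1)))
      fun z _ => Nat.mem_divisors.2 ⟨Nat.gcd_dvd_left _ _, hq0⟩]
    refine (sum_le_card_nsmul _ _ (9 * τ * q) fun g hg => ?_).trans
      (Nat.mul_le_mul_right _ (hτ q le_rfl))
    rw [sum_congr rfl (g := fun _ => g) fun z hz => (mem_filter.1 hz).2, sum_const, smul_eq_mul]
    have h3 := card_Qd g X τ (fun N hN => hτ N (by omega)) hτ1
      (S.filter fun z => Nat.gcd q (Int.gcd (z 0) (z 1)) = g) fun z hz => by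
        obtain ⟨a1, a2⟩ := mem_filter.1 hz
        obtain ⟨a3, a4, r, a5⟩ := mem_filter.1 a1
        have b0 : (g : ℤ) ∣ Int.gcd (z 0) (z 1) := by
          exact_mod_cast a2 ▸ Nat.gcd_dvd_right _ _
        have b1 := b0.trans (Int.gcd_dvd_left (z 0) (z 1))
        have b2 := b0.trans (Int.gcd_dvd_right (z 0) (z 1))
        refine ⟨a3, a5.qd a3 hX, a4, b1, b2, ?_⟩
        have b3 : (q : ℤ) ∣ z 2 - (2 * r.val * z 1 - r.val ^ 2 * z 0) := by
          rw [← ZMod.intCast_zmod_eq_zero_iff_dvd]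
          push_cast
          rw [ZMod.natCast_zmod_val, a5.1, sub_self]
        have b4 : (g : ℤ) ∣ q := by exact_mod_cast Nat.dvd_of_mem_divisors hg
        have := (b4.trans b3).add ((b2.mul_left (2 * r.val)).sub (b1.mul_left (r.val ^ 2)))
        rwa [sub_add_cancel] at this
    have h4 := card_prs (Nat.pos_of_mem_divisors hg) X
    calc _ ≤ 8 * τ * (prs g X).card * g := Nat.mul_le_mul_right _ h3
      _ = 8 * τ * (g * (prs g X).card) := by ring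
      _ ≤ 8 * τ * (9 * X ^ 2) := Nat.mul_le_mul_left _ h4
      _ = 9 * τ * (8 * X ^ 2) := by ring
      _ ≤ _ := Nat.mul_le_mul_left _ hX.le
  have h5 : q ≤ τ ^ 2 * q := Nat.le_mul_of_pos_left _ (by positivity)
  nlinarith

/-- Coefficient vectors of quintics with a double root at `r`. -/
def InL {q : ℕ} (r : ZMod q) (x : Fin 6 → ℤ) : Prop :=
  (x 0 : ZMod q) + x 1 * r + x 2 * r ^ 2 + x 3 * r ^ 3 + x 4 * r ^ 4 + x 5 * r ^ 5 = 0 ∧
    (x 1 : ZMod q) + 2 * x 2 * r + 3 * x 3 * r ^ 2 + 4 * x 4 * r ^ 3 + 5 * x 5 * r ^ 4 = 0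

open Classical in
lemma lat_count {q : ℕ} [NeZero q] (Y0 Y : ℕ) (hY : 1 ≤ Y) (hY0 : Y ≤ Y0) (hq : 2 * Y0 < q)
    (r : ZMod q) (S : Finset (Fin 6 → ℤ))
    (hS : ∀ x ∈ S, |x 0| ≤ Y0 ∧ (∀ i, i ≠ 0 → |x i| ≤ Y) ∧ InL r x) :
    S.card * q ^ 2 ≤ 4 * 36 ^ 6 * (Y0 * Y ^ 5) * ((box6 (2 * (q / (36 * Y)))).filter (Rel r)).card := by
  set B := q / (36 * Y) with hB
  set B0 := q / (36 * Y0) with hB0
  have hBB : B0 ≤ B := Nat.div_le_div_left (by omega) (by omega)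
  let bd : Fin 6 → ℕ := fun i => if i = 0 then B0 else B
  let V : Finset (Fin 6 → ℤ) := Fintype.piFinset fun i => Icc (-(bd i : ℤ)) (bd i)
  have hV : ∀ v ∈ V, ∀ i, |v i| ≤ bd i := fun v hv i =>
    abs_le.2 (mem_Icc.1 (Fintype.mem_piFinset.1 hv i))
  have hV' : ∀ v ∈ V, ∀ i, |v i| ≤ B := fun v hv i => (hV v hv i).trans (by
    simp only [bd]; split_ifs <;> omega)
  let ψ : (Fin 6 → ℤ) → Fin 4 → ZMod q := fun v =>
    ![v 2 - (2 * r * v 1 - r ^ 2 * v 0), v 3 - (3 * r ^ 2 * v 1 - 2 * r ^ 3 * v 0),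
      v 4 - (4 * r ^ 3 * v 1 - 3 * r ^ 4 * v 0), v 5 - (5 * r ^ 4 * v 1 - 4 * r ^ 5 * v 0)]
  have hall : ∀ x ∈ S, ∀ i, |x i| ≤ Y0 := fun x hx i => by
    by_cases h : i = 0
    · rw [h]; exact (hS x hx).1
    · exact ((hS x hx).2.1 i h).trans (by exact_mod_cast hY0)
  have key := transfer S V (fun x => ![(x 2 : ZMod q), x 3, x 4, x 5]) ?_ ψ
    ((box6 (2 * B)).filter (Rel r)).card ?_ ?_
  · have hc : ∀ b : ℕ, (Icc (-(b : ℤ)) b).card = 2 * b + 1 := fun b => by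
      rw [Int.card_Icc]; omega
    have h1 : V.card = (2 * B0 + 1) * (2 * B + 1) ^ 5 := by
      rw [Fintype.card_piFinset]
      simp only [hc, Fin.prod_univ_six, bd]
      simp
      ring
    have h2 : q ≤ 36 * Y * (2 * B + 1) :=
      (Nat.lt_mul_div_succ q (by omega)).le.trans (Nat.mul_le_mul_left _ (by omega))
    have h3 : q ≤ 36 * Y0 * (2 * B0 + 1) :=
      (Nat.lt_mul_div_succ q (by omega)).le.trans (Nat.mul_le_mul_left _ (by omega))
    have h4 : q ^ 6 ≤ 36 ^ 6 * (Y0 * Y ^ 5) * V.card := by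
      calc q ^ 6 = q * q ^ 5 := by ring
        _ ≤ (36 * Y0 * (2 * B0 + 1)) * (36 * Y * (2 * B + 1)) ^ 5 :=
          Nat.mul_le_mul h3 (Nat.pow_le_pow_left h2 5)
        _ = _ := by rw [h1]; ring
    refine Nat.le_of_mul_le_mul_right ?_ (pow_pos (NeZero.pos q) 4)
    calc S.card * q ^ 2 * q ^ 4 = q ^ 6 * S.card := by ring
      _ ≤ 36 ^ 6 * (Y0 * Y ^ 5) * V.card * S.card := Nat.mul_le_mul_right _ h4
      _ = 36 ^ 6 * (Y0 * Y ^ 5) * (V.card * S.card) := by ring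
      _ ≤ _ := Nat.mul_le_mul_left _ key
      _ = _ := by ring
  · intro x hx y hy h
    have h2 : (x 2 : ZMod q) = y 2 := congrFun h 0
    have h3 : (x 3 : ZMod q) = y 3 := congrFun h 1
    have h4 : (x 4 : ZMod q) = y 4 := congrFun h 2
    have h5 : (x 5 : ZMod q) = y 5 := congrFun h 3
    obtain ⟨a0, a1⟩ := (hS x hx).2.2
    obtain ⟨b0, b1⟩ := (hS y hy).2.2
    rw [h2, h3, h4, h5] at a0 a1
    have h1 : (x 1 : ZMod q) = y 1 := by linear_combination a1 - b1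
    rw [h1] at a0
    have h0 : (x 0 : ZMod q) = y 0 := by linear_combination a0 - b0
    have fin : ∀ i, (x i : ZMod q) = y i → x i = y i := fun i hi => by
      refine sub_eq_zero.1 (eq_zero_of_small (q := q) (by push_cast; rw [hi, sub_self]) ?_)
      have c1 := abs_le.1 (hall x hx i)
      have c2 := abs_le.1 (hall y hy i)
      rw [abs_lt]; omega
    funext i
    fin_cases i
    exacts [fin _ h0, fin _ h1, fin _ h2, fin _ h3, fin _ h4, fin _ h5]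
  · intro w
    rcases (V.filter fun v => ψ v = w).eq_empty_or_nonempty with h | ⟨v0, hv0⟩
    · simp [h]
    refine card_le_card_of_injOn (fun v => v - v0) (fun v hv => ?_) fun v _ v' _ h =>
      sub_left_injective h
    obtain ⟨a1, a2⟩ := mem_filter.1 hv
    obtain ⟨b1, b2⟩ := mem_filter.1 hv0
    have e := a2.trans b2.symm
    refine mem_coe.2 (mem_filter.2 ⟨mem_box6.2 fun i => ?_, ?_, ?_, ?_, ?_⟩)
    · have c1 := abs_le.1 (hV' v a1 i)
      have c2 := abs_le.1 (hV' v0 b1 i)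
      simp only [Pi.sub_apply, abs_le]; omega
    · have := congrFun e 0
      simp only [ψ, Matrix.cons_val_zero] at this
      simp only [Pi.sub_apply]; push_cast; linear_combination this
    · have := congrFun e 1
      simp only [ψ, Matrix.cons_val_zero, Matrix.cons_val_one] at this
      simp only [Pi.sub_apply]; push_cast; linear_combination this
    · have := congrFun e 2
      simp only [ψ, Matrix.cons_val] at this
      simp only [Pi.sub_apply]; push_cast; linear_combination this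
    · have := congrFun e 3
      simp only [ψ, Matrix.cons_val] at this
      simp only [Pi.sub_apply]; push_cast; linear_combination this
  · intro v hv x hx
    refine ⟨∑ i, v i * x i, ?_, ?_⟩
    · have h1 : ∀ i, 36 * |v i * x i| ≤ q := fun i => by
        rw [abs_mul]
        have c1 := hV v hv i
        by_cases h : i = 0
        · subst h
          have c2 : (36 * Y0 * B0 : ℤ) ≤ q := by exact_mod_cast Nat.mul_div_le q (36 * Y0)
          have c3 := mul_le_mul c1 (hS x hx).1 (abs_nonneg _) (by positivity)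
          simp only [bd, if_true] at c3
          linarith
        · have c2 : (36 * Y * B : ℤ) ≤ q := by exact_mod_cast Nat.mul_div_le q (36 * Y)
          have c3 := mul_le_mul c1 ((hS x hx).2.1 i h) (abs_nonneg _) (by positivity)
          simp only [bd, if_neg h] at c3
          linarith
      have h2 := abs_sum_le_sum_abs (fun i => v i * x i) univ
      rw [Fin.sum_univ_six (fun i => |v i * x i|)] at h2
      linarith [h1 0, h1 1, h1 2, h1 3, h1 4, h1 5]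
    · obtain ⟨a0, a1⟩ := (hS x hx).2.2
      simp only [Fin.sum_univ_six, Fin.sum_univ_four, ψ, Matrix.cons_val_zero, Matrix.cons_val_one,
        Matrix.cons_val]
      push_cast
      linear_combination (v 0 : ZMod q) * a0 + (v 1 - r * v 0 : ZMod q) * a1

theorem dual_count {q : ℕ} [NeZero q] (hsq : Squarefree q) (Y0 Y τ : ℕ) (hY0 : Y ≤ Y0)
    (hq : 2 * Y0 < q) (hq' : q ≤ Y ^ 2) (hτ : ∀ N ≤ q, N.divisors.card ≤ τ)
    (S : ZMod q → Finset (Fin 6 → ℤ))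
    (hS : ∀ r, ∀ x ∈ S r, |x 0| ≤ Y0 ∧ (∀ i, i ≠ 0 → |x i| ≤ Y) ∧ InL r x) :
    (∑ r, (S r).card) * q ≤ 40 * 36 ^ 6 * τ ^ 2 * (Y0 * Y ^ 5) := by
  have hq0 := NeZero.pos q
  have hY : 1 ≤ Y := by
    rcases Y with _ | Y
    · simp at hq'; omega
    · omega
  have h1 := sum_rel hsq (2 * (q / (36 * Y))) τ (by
    have c1 := Nat.mul_div_le q (36 * Y)
    generalize q / (36 * Y) = B at *
    have c2 : (36 * Y * B) ^ 2 ≤ q ^ 2 := Nat.pow_le_pow_left c1 2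
    have c3 : q * (36 * B) ^ 2 ≤ q * q :=
      (Nat.mul_le_mul_right _ hq').trans (by nlinarith)
    have c4 := Nat.le_of_mul_le_mul_left c3 hq0
    nlinarith) hτ
  refine Nat.le_of_mul_le_mul_right ?_ hq0
  calc (∑ r, (S r).card) * q * q = ∑ r, (S r).card * q ^ 2 := by rw [← sum_mul]; ring
    _ ≤ _ := sum_le_sum fun r _ => lat_count Y0 Y hY hY0 hq r (S r) (hS r)
    _ = _ := (mul_sum _ _ _).symm
    _ ≤ _ := Nat.mul_le_mul_left _ h1
    _ = _ := by ring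

end Pool.Agent.NF76
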