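import Pool.Agent.Lib.NF76.Fibre
import Pool.Agent.Lib.NF76.Dual2

set_option autoImplicit false

namespace Pool.Agent.NF76

open Finset Polynomial

/-- `f` has at most `n - k` distinct roots in every field of characteristic `p`. -/
def Few (n k p : ℕ) (f : ℤ[X]) : Prop :=
  ∀ (F : Type) [Field F] [CharP F p], ∃ t : Finset F, t.card + k ≤ n ∧
    ∀ z : F, aeval z f = 0 → z ∈ t

/-- `f` has a double root modulo `q`. -/
def Dbl (q : ℕ) (f : ℤ[X]) : Prop :=
  ∃ r : ℤ, (q : ℤ) ∣ f.eval r ∧ (q : ℤ) ∣ (derivative f).eval r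

lemma exists_fun {α : Type*} {n : ℕ} (s : Multiset α) (h : s.card = n) :
    ∃ y : Fin n → α, univ.val.map y = s := by
  induction s using Quotient.inductionOn with
  | h l =>
    obtain rfl : l.length = n := h
    exact ⟨l.get, by rw [Fin.univ_val_map, List.ofFn_get]; rfl⟩

lemma exists_idx {α : Type*} (t : Finset α) (E : ℕ) (h : t.card ≤ E) :
    ∃ ι : α → ℕ, (∀ a, ι a ≤ E) ∧ Set.InjOn ι t := by
  classical
  refine ⟨fun a => if h : a ∈ t then t.equivFin ⟨a, h⟩ else 0, fun a => ?_, fun a ha b hb e => ?_⟩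
  · dsimp only
    split_ifs with ha
    exacts [(t.equivFin ⟨a, ha⟩).2.le.trans h, Nat.zero_le _]
  · simp only [dif_pos (mem_coe.1 ha), dif_pos (mem_coe.1 hb)] at e
    exact congrArg Subtype.val (t.equivFin.injective (Fin.ext e))

theorem colour (n : ℕ) : ∃ E : ℕ, ∀ p k : ℕ, ∃ col : ℤ[X] → ℕ, (∀ f, col f ≤ E) ∧
    (p.Prime → n < p → ∀ f g : ℤ[X], f.Monic → f.natDegree = n → Few n k p f →
      g.Monic → g.natDegree = n → Few n k p g → col f = col g →
      (∀ j, k ≤ j → j < n → (p : ℤ) ∣ f.coeff j - g.coeff j) →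
      ∀ j, (p : ℤ) ∣ f.coeff j - g.coeff j) := by
  classical
  obtain ⟨E, hE⟩ := fibre n
  refine ⟨E, fun p k => ?_⟩
  by_cases hp : p.Prime ∧ n < p
  swap
  · exact ⟨fun _ => 0, fun _ => Nat.zero_le _, fun h1 h2 => (hp ⟨h1, h2⟩).elim⟩
  have : Fact p.Prime := ⟨hp.1⟩
  let F := AlgebraicClosure (ZMod p)
  have hF : ∀ i : ℕ, 0 < i → i ≤ n → (i : F) ≠ 0 := fun i hi hi' h =>
    absurd (Nat.le_of_dvd hi ((CharP.cast_eq_zero_iff F p i).1 h)) (by omega)
  choose t ht ht' using hE k F hF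
  choose ι hι hι' using fun a => exists_idx (t a) E (ht a)
  have hy : ∀ f : ℤ[X], ∃ y : Fin n → F, f.Monic → f.natDegree = n →
      f.map (Int.castRingHom F) = ∏ l, (X - C (y l)) := fun f => by
    by_cases h : f.Monic ∧ f.natDegree = n
    · have h1 := IsAlgClosed.splits (f.map (Int.castRingHom F))
      obtain ⟨y, hy⟩ := exists_fun (n := n) (f.map (Int.castRingHom F)).roots
        (by rw [← h1.natDegree_eq_card_roots, h.1.natDegree_map, h.2])
      refine ⟨y, fun _ _ => ?_⟩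
      rw [h1.eq_prod_roots_of_monic (h.1.map _), ← hy, Multiset.map_map]
      rfl
    · exact ⟨0, fun h1 h2 => (h ⟨h1, h2⟩).elim⟩
  choose y hy using hy
  let a : ℤ[X] → ℕ → F := fun f j => if k ≤ j ∧ j < n then (f.coeff j : F) else 0
  have hmem : ∀ f : ℤ[X], f.Monic → f.natDegree = n → Few n k p f → y f ∈ t (a f) := by
    intro f h1 h2 h3
    refine ht' _ _ ?_ fun j hj hj' => ?_
    · obtain ⟨s, hs, hs'⟩ := h3 F
      refine le_trans (Nat.add_le_add_right (card_le_card fun z hz => hs' z ?_) k) hs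
      obtain ⟨l, -, rfl⟩ := mem_image.1 hz
      rw [aeval_def, ← eval_map, algebraMap_int_eq, hy f h1 h2, eval_prod]
      exact prod_eq_zero (mem_univ l) (by simp)
    · rw [← hy f h1 h2, coeff_map]
      simp [a, hj, hj']
  have hcast : ∀ u v : ℤ, (p : ℤ) ∣ u - v ↔ (u : F) = v := fun u v => by
    rw [← CharP.intCast_eq_zero_iff F p, Int.cast_sub, sub_eq_zero]
  refine ⟨fun f => ι (a f) (y f), fun f => hι _ _, fun _ _ f g f1 f2 f3 g1 g2 g3 hc h j => ?_⟩
  have ha : a f = a g := funext fun j => by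
    simp only [a]
    split_ifs with hj
    exacts [(hcast _ _).1 (h j hj.1 hj.2), rfl]
  have h1 := hmem f f1 f2 f3
  have h2 := hmem g g1 g2 g3
  simp only [ha] at h1 hc
  have h3 := hy f f1 f2
  rw [hι' _ h1 h2 hc, ← hy g g1 g2] at h3
  have h4 := congrArg (fun u => u.coeff j) h3
  simpa only [hcast, coeff_map, eq_intCast] using h4

lemma card_mul_le {α β : Type*} [DecidableEq β] (s : Finset α) (t : Finset β) (f : α → β)
    (hf : ∀ a ∈ s, f a ∈ t) (q B : ℕ) (h : ∀ b ∈ t, (s.filter fun a => f a = b).card * q ≤ B) :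
    s.card * q ≤ B * t.card := by
  rw [card_eq_sum_card_fiberwise hf, sum_mul, mul_comm]
  exact sum_le_card_nsmul _ _ _ h

lemma prod_dvd_int {s : Finset ℕ} (hs : ∀ p ∈ s, p.Prime) {z : ℤ} (h : ∀ p ∈ s, (p : ℤ) ∣ z) :
    ((∏ p ∈ s, p : ℕ) : ℤ) ∣ z :=
  Int.natCast_dvd.2 (prod_primes_dvd _ (fun p hp => (hs p hp).prime)
    fun p hp => Int.natCast_dvd.1 (h p hp))

lemma Dbl.mul {a b : ℕ} (hab : a.Coprime b) {f : ℤ[X]} (ha : Dbl a f) (hb : Dbl b f) :
    Dbl (a * b) f := by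
  obtain ⟨r, h1, h2⟩ := ha
  obtain ⟨s, h3, h4⟩ := hb
  have hc : IsCoprime (a : ℤ) b := Nat.isCoprime_iff_coprime.2 hab
  obtain ⟨u, v, huv⟩ := hc
  have key : ∀ g : ℤ[X], (a : ℤ) ∣ g.eval r → (b : ℤ) ∣ g.eval s →
      ((a * b : ℕ) : ℤ) ∣ g.eval (r * (v * b) + s * (u * a)) := fun g hr hs => by
    rw [Nat.cast_mul]
    refine (Nat.isCoprime_iff_coprime.2 hab).mul_dvd ?_ ?_
    · have : (a : ℤ) ∣ r * (v * b) + s * (u * a) - r := ⟨(s - r) * u, by linear_combination r * huv⟩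
      simpa using (this.trans (sub_dvd_eval_sub _ _ g)).add hr
    · have : (b : ℤ) ∣ r * (v * b) + s * (u * a) - s := ⟨(r - s) * v, by linear_combination s * huv⟩
      simpa using (this.trans (sub_dvd_eval_sub _ _ g)).add hs
  exact ⟨_, key _ h1 h3, key _ h2 h4⟩

lemma Dbl.prod {s : Finset ℕ} (hs : ∀ p ∈ s, p.Prime) {f : ℤ[X]} (h : ∀ p ∈ s, Dbl p f) :
    Dbl (∏ p ∈ s, p) f := by
  induction s using Finset.induction_on with
  | empty => exact ⟨0, by simp, by simp⟩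
  | insert p s hp ih =>
    rw [prod_insert hp]
    refine Dbl.mul (Nat.Coprime.prod_right fun p' hp' => ?_) (h p (mem_insert_self _ _))
      (ih (fun p hp => hs p (mem_insert_of_mem hp)) fun p hp => h p (mem_insert_of_mem hp))
    exact (Nat.coprime_primes (hs p (mem_insert_self _ _)) (hs p' (mem_insert_of_mem hp'))).2
      fun e => hp (e ▸ hp')

/-- The product of the primes `p` with `j < κ p`. -/
def mm (P : Finset ℕ) (κ : ℕ → ℕ) (j : ℕ) : ℕ := ∏ p ∈ P.filter fun p => j < κ p, p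

/-- The top coefficients determine the reduction. -/
def Star (n : ℕ) (P : Finset ℕ) (κ : ℕ → ℕ) (f g : ℤ[X]) : Prop :=
  ∀ p ∈ P, (∀ j, κ p ≤ j → j < n → (p : ℤ) ∣ f.coeff j - g.coeff j) →
    ∀ j, (p : ℤ) ∣ f.coeff j - g.coeff j

lemma top_eq {n t : ℕ} {P : Finset ℕ} {κ : ℕ → ℕ} (hP : ∀ p ∈ P, p.Prime) {f g : ℤ[X]}
    (h : Star n P κ f g) (h1 : ∀ j, n - 1 ≤ j → f.coeff j = g.coeff j)
    (h2 : ∀ j, t ≤ j → j < n - 1 → f.coeff j / mm P κ j = g.coeff j / mm P κ j) :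
    ∀ j, t ≤ j → f.coeff j = g.coeff j := by
  have key : ∀ i j, t ≤ j → n - 1 ≤ j + i → f.coeff j = g.coeff j := by
    intro i
    induction i with
    | zero => exact fun j _ hj => h1 j hj
    | succ i ih =>
      intro j hj hj'
      by_cases hj2 : n - 1 ≤ j
      · exact h1 j hj2
      have h3 : (mm P κ j : ℤ) ∣ f.coeff j - g.coeff j :=
        prod_dvd_int (fun p hp => hP p (mem_filter.1 hp).1) fun p hp =>
          h p (mem_filter.1 hp).1 (fun l hl _ => by
            have := (mem_filter.1 hp).2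
            rw [ih l (by omega) (by omega), sub_self]
            exact dvd_zero _) j
      have h4 : f.coeff j % mm P κ j = g.coeff j % mm P κ j := (Int.modEq_iff_dvd.2 h3).symm
      rw [← Int.emod_add_mul_ediv (f.coeff j) (mm P κ j), h4, h2 j hj (by omega),
        Int.emod_add_mul_ediv]
  exact fun j hj => key (n - 1) j hj (by omega)

lemma class_count {n : ℕ} (t : ℕ) {P : Finset ℕ} {κ : ℕ → ℕ} (hP : ∀ p ∈ P, p.Prime)
    (u W : ℕ → ℕ) (hu : ∀ j, 0 < u j) (S : Finset ℤ[X])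
    (h : ∀ f ∈ S, ∀ g ∈ S, Star n P κ f g)
    (h1 : ∀ f ∈ S, ∀ g ∈ S, ∀ j, n - 1 ≤ j → f.coeff j = g.coeff j)
    (h2 : ∀ f ∈ S, ∀ j, j < n - 1 → |f.coeff j| ≤ W j) (q B : ℕ)
    (h3 : ∀ S' ⊆ S, (∀ f ∈ S', ∀ g ∈ S', (∀ j, t ≤ j → f.coeff j = g.coeff j) ∧
      ∀ j, j < t → j < n - 1 → (u j : ℤ) ∣ f.coeff j - g.coeff j) → S'.card * q ≤ B) :
    S.card * q ≤ B * ∏ j ∈ range (n - 1), if j < t then u j else 2 * (W j / mm P κ j) + 2 := by
  classical
  have hm : ∀ j, 0 < mm P κ j := fun j => prod_pos fun p hp => (hP p (mem_filter.1 hp).1).pos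
  let Φ : ℤ[X] → Fin (n - 1) → ℤ := fun f j =>
    if (j : ℕ) < t then f.coeff j % u j else f.coeff j / mm P κ j
  let T : Fin (n - 1) → Finset ℤ := fun j => if (j : ℕ) < t then Ico 0 (u j : ℤ) else
    Icc (-((W j / mm P κ j : ℕ) : ℤ) - 1) (W j / mm P κ j : ℕ)
  refine (card_mul_le S (Fintype.piFinset T) Φ (fun f hf => ?_) q B fun b _ => ?_).trans_eq ?_
  · refine Fintype.mem_piFinset.2 fun j => ?_
    simp only [Φ, T]
    split_ifs
    · have : (0 : ℤ) < u j := by exact_mod_cast hu j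
      exact mem_Ico.2 ⟨Int.emod_nonneg _ this.ne', Int.emod_lt_of_pos _ this⟩
    · have a1 : (0 : ℤ) < mm P κ j := by exact_mod_cast hm j
      obtain ⟨a2, a3⟩ := abs_le.1 (h2 f hf j j.2)
      rw [Int.natCast_div]
      refine mem_Icc.2 ⟨?_, Int.ediv_le_ediv a1 a3⟩
      rw [Int.le_ediv_iff_mul_le a1]
      have a4 := Int.lt_ediv_add_one_mul_self (W j) a1
      linarith
  · refine h3 _ (filter_subset _ _) fun f hf g hg => ?_
    obtain ⟨a1, a2⟩ := mem_filter.1 hf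
    obtain ⟨b1, b2⟩ := mem_filter.1 hg
    have e := a2.trans b2.symm
    refine ⟨top_eq hP (h f a1 g b1) (h1 f a1 g b1) fun j hj hj' => ?_, fun j hj hj' => ?_⟩
    · simpa only [Φ, if_neg (not_lt.2 hj)] using congrFun e ⟨j, hj'⟩
    · have := congrFun e ⟨j, hj'⟩
      simp only [Φ, if_pos hj] at this
      exact Int.modEq_iff_dvd.1 this.symm
  · rw [Fintype.card_piFinset, prod_range]
    congr 1
    refine prod_congr rfl fun j _ => ?_
    simp only [T]
    split_ifs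
    · simp
    · rw [Int.card_Icc]; omega

open Classical in
lemma fibre_count {q R : ℕ} (hsq : Squarefree q) (hR : 0 < R) (hqR : R.Coprime q)
    (W0 W1 τ : ℕ) (hW : W1 ≤ W0) (hq : 4 * W0 < q * R) (hq' : q * R ^ 2 ≤ W1 ^ 2) (hRW : R ≤ W1)
    (hτ : ∀ N ≤ q, N.divisors.card ≤ τ) (S : Finset ℤ[X])
    (h1 : ∀ f ∈ S, ∀ g ∈ S, (∀ j, 6 ≤ j → f.coeff j = g.coeff j) ∧
      ∀ j, (R : ℤ) ∣ f.coeff j - g.coeff j)
    (h2 : ∀ f ∈ S, |f.coeff 0| ≤ W0 ∧ (∀ j, 0 < j → j < 6 → |f.coeff j| ≤ W1) ∧ Dbl q f) :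
    S.card * (q * R ^ 6) ≤ 40 * 72 ^ 6 * τ ^ 2 * (W0 * W1 ^ 5) := by
  have : NeZero q := ⟨hsq.ne_zero⟩
  have hR' : (0 : ℤ) < R := by exact_mod_cast hR
  let ρ : ℤ[X] → ZMod q := fun f => if h : Dbl q f then (h.choose : ZMod q) else 0
  have hρ : ∀ f ∈ S, aeval (ρ f) f = 0 ∧ aeval (ρ f) (derivative f) = 0 := fun f hf => by
    have h := (h2 f hf).2.2
    have key : ∀ g : ℤ[X], (q : ℤ) ∣ g.eval h.choose → aeval (ρ f) g = 0 := fun g hg => by
      simp only [ρ, dif_pos h]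
      rw [← eq_intCast (algebraMap ℤ (ZMod q)), aeval_algebraMap_apply, eq_intCast,
        ZMod.intCast_zmod_eq_zero_iff_dvd]
      exact hg
    exact ⟨key _ h.choose_spec.1, key _ h.choose_spec.2⟩
  let g0 : ZMod q → ℤ[X] := fun r =>
    if h : (S.filter fun f => ρ f = r).Nonempty then h.choose else 0
  have hg0 : ∀ f ∈ S, g0 (ρ f) ∈ S ∧ ρ (g0 (ρ f)) = ρ f := fun f hf => by
    have h : (S.filter fun g => ρ g = ρ f).Nonempty := ⟨f, mem_filter.2 ⟨hf, rfl⟩⟩
    simp only [g0, dif_pos h]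
    exact mem_filter.1 h.choose_spec
  let x : ℤ[X] → Fin 6 → ℤ := fun f i => (f.coeff i - (g0 (ρ f)).coeff i) / R
  have hx : ∀ f ∈ S, ∀ i : Fin 6, R * x f i = f.coeff i - (g0 (ρ f)).coeff i := fun f hf i =>
    Int.mul_ediv_cancel' ((h1 f hf _ (hg0 f hf).1).2 i)
  have hbd : ∀ f ∈ S, ∀ (i : Fin 6) (W : ℕ), |f.coeff i| ≤ W → |(g0 (ρ f)).coeff i| ≤ W →
      |x f i| ≤ (2 * W / R : ℕ) := fun f hf i W a1 a2 => by
    rw [Int.natCast_div, Int.le_ediv_iff_mul_le hR', mul_comm, ← abs_of_pos hR', ← abs_mul,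
      hx f hf]
    refine (abs_sub _ _).trans ?_
    push_cast
    linarith
  have e1 := Nat.mul_div_le (2 * W0) R
  have e2 := Nat.mul_div_le (2 * W1) R
  have key := dual_count hsq (2 * W0 / R) (2 * W1 / R) τ (Nat.div_le_div_right (by omega))
    (lt_of_mul_lt_mul_right (a := R) (by nlinarith) (Nat.zero_le _))
    (by
      have e3 := Nat.lt_mul_div_succ (2 * W1) hR
      have e4 : W1 ≤ R * (2 * W1 / R) := by nlinarith
      refine Nat.le_of_mul_le_mul_right (hq'.trans ?_) (pow_pos hR 2)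
      rw [← mul_pow, mul_comm]
      exact Nat.pow_le_pow_left e4 2) hτ
    (fun r => (S.filter fun f => ρ f = r).image x) (fun r z hz => by
      obtain ⟨f, hf0, rfl⟩ := mem_image.1 hz
      obtain ⟨hf, rfl⟩ := mem_filter.1 hf0
      obtain ⟨a1, a2⟩ := hg0 f hf
      refine ⟨hbd f hf 0 W0 (h2 f hf).1 (h2 _ a1).1, fun i hi => ?_, ?_⟩
      · have : 0 < (i : ℕ) := Nat.pos_of_ne_zero fun e => hi (Fin.ext e)
        exact hbd f hf i W1 ((h2 f hf).2.1 i this i.2) ((h2 _ a1).2.1 i this i.2)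
      · have hu : IsUnit ((R : ℤ) : ZMod q) := by
          rw [Int.cast_natCast]; exact (ZMod.isUnit_iff_coprime R q).2 hqR
        have hd : (f - g0 (ρ f)).natDegree < 6 := by
          refine lt_of_le_of_lt ((natDegree_le_iff_coeff_eq_zero (n := 5)).2 fun j hj => ?_)
            (by norm_num)
          rw [coeff_sub, (h1 f hf _ a1).1 j hj, sub_self]
        have b1 := aeval_eq_sum_range' hd (ρ f)
        have b2 := aeval_eq_sum_range' (n := 5) (p := derivative (f - g0 (ρ f)))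
          (lt_of_le_of_lt (natDegree_derivative_le _) (by omega)) (ρ f)
        have c1 := hρ _ a1
        rw [a2] at c1
        rw [map_sub, (hρ f hf).1, c1.1, sub_self] at b1
        rw [derivative_sub, map_sub, (hρ f hf).2, c1.2, sub_self, ← derivative_sub] at b2
        have d : ∀ i : Fin 6, (((f - g0 (ρ f)).coeff i : ℤ) : ZMod q) = (R : ℤ) * x f i :=
          fun i => by rw [coeff_sub, ← hx f hf, Int.cast_mul]
        have d0 := d 0; have d1 := d 1; have d2 := d 2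
        have d3 := d 3; have d4 := d 4; have d5 := d 5
        simp only [sum_range_succ, range_zero, sum_empty, coeff_derivative, zsmul_eq_mul] at b1 b2
        push_cast at b1 b2
        refine ⟨hu.mul_left_cancel ?_, hu.mul_left_cancel ?_⟩
        · erw [d0, d1, d2, d3, d4, d5] at b1
          linear_combination -b1
        · erw [d1, d2, d3, d4, d5] at b2
          linear_combination -b2)
  have h3 : S.card = ∑ r, ((S.filter fun f => ρ f = r).image x).card := by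
    rw [card_eq_sum_card_fiberwise (t := univ) (f := ρ) fun _ _ => mem_univ _]
    refine sum_congr rfl fun r _ => (card_image_of_injOn fun f hf g hg e => ?_).symm
    obtain ⟨a1, a2⟩ := mem_filter.1 hf
    obtain ⟨b1, b2⟩ := mem_filter.1 hg
    ext j
    by_cases hj : 6 ≤ j
    · exact (h1 f a1 g b1).1 j hj
    · have c1 := hx f a1 ⟨j, by omega⟩
      have c2 := hx g b1 ⟨j, by omega⟩
      rw [e, c2, a2, b2] at c1
      exact (sub_left_injective c1).symm
  rw [← h3] at key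
  calc S.card * (q * R ^ 6) = S.card * q * R ^ 6 := by ring
    _ ≤ _ := Nat.mul_le_mul_right _ key
    _ = 40 * 36 ^ 6 * τ ^ 2 * ((R * (2 * W0 / R)) * (R * (2 * W1 / R)) ^ 5) := by ring
    _ ≤ 40 * 36 ^ 6 * τ ^ 2 * ((2 * W0) * (2 * W1) ^ 5) := by gcongr
    _ = _ := by ring

end Pool.Agent.NF76
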