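import Pool.Agent.Lib.NF76.Count1

set_option autoImplicit false

namespace Pool.Agent.NF76

open Finset Polynomial

variable {P : Finset ℕ} {κ : ℕ → ℕ}

lemma prod_mm {N : ℕ} (hκ : ∀ p ∈ P, κ p ≤ N) :
    ∏ j ∈ range N, mm P κ j = ∏ p ∈ P, p ^ κ p := by
  simp only [mm, prod_filter]
  rw [prod_comm]
  refine prod_congr rfl fun p hp => ?_
  rw [← prod_filter, prod_const]
  congr 1
  have : (range N).filter (fun j => j < κ p) = range (κ p) := by
    ext j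
    have := hκ p hp
    simp only [mem_filter, mem_range]
    omega
  rw [this, card_range]

lemma mm_pow_le (hP : ∀ p ∈ P, p.Prime) (j : ℕ) : mm P κ j ^ (j + 1) ≤ ∏ p ∈ P, p ^ κ p := by
  rw [mm, ← prod_pow]
  refine (prod_le_prod' fun p hp => Nat.pow_le_pow_right (hP p (mem_filter.1 hp).1).pos
    (mem_filter.1 hp).2).trans (prod_le_prod_of_subset_of_one_le' (filter_subset _ _)
      fun p hp _ => Nat.one_le_pow _ _ (hP p hp).pos)

lemma mm_le (hP : ∀ p ∈ P, p.Prime) {n T : ℕ} (hT : 1 ≤ T)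
    (hD : ∏ p ∈ P, p ^ κ p ≤ T ^ (2 * n - 2)) {j : ℕ} (hj : 1 ≤ j) (hj' : j < n - 1) :
    mm P κ j ≤ T ^ (n - j) := by
  refine (Nat.pow_le_pow_iff_left (n := j + 1) (by omega)).1 ((mm_pow_le hP j).trans (hD.trans ?_))
  rw [← pow_mul]
  refine Nat.pow_le_pow_right hT ?_
  obtain ⟨s, rfl⟩ : ∃ s, n = j + (s + 2) := ⟨n - j - 2, by omega⟩
  obtain ⟨i, rfl⟩ : ∃ i, j = i + 1 := ⟨j - 1, by omega⟩
  rw [Nat.add_sub_cancel_left, Nat.sub_le_iff_le_add]
  nlinarith [Nat.zero_le (s * i)]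

lemma cnt_mul (W m : ℕ) : (2 * (W / m) + 2) * m ≤ 2 * W + 2 * m := by
  have := Nat.div_mul_le_self W m
  nlinarith

theorem count_star {n A T τ : ℕ} (hn : 2 ≤ n) (hA : 1 ≤ A) (hT : 1 ≤ T) (hP : ∀ p ∈ P, p.Prime)
    (hκ : ∀ p ∈ P, 1 ≤ κ p ∧ κ p ≤ n - 1) (hD : ∏ p ∈ P, p ^ κ p ≤ T ^ (2 * n - 2))
    (hτ : ∀ N ≤ ∏ p ∈ P, p ^ κ p, N.divisors.card ≤ τ) (S : Finset ℤ[X])
    (h : ∀ f ∈ S, ∀ g ∈ S, Star n P κ f g)
    (h1 : ∀ f ∈ S, ∀ g ∈ S, ∀ j, n - 1 ≤ j → f.coeff j = g.coeff j)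
    (h2 : ∀ f ∈ S, ∀ j, j < n - 1 → |f.coeff j| ≤ (A * T ^ (n - j) : ℕ))
    (h3 : ∀ f ∈ S, ∀ p ∈ P, κ p = 1 → Dbl p f) :
    S.card * ∏ p ∈ P, p ^ κ p ≤ 40 * 72 ^ 6 * 4 ^ n * τ ^ 2 * T ^ min (n - 2) 10 *
      ∏ j ∈ range (n - 1), A * T ^ (n - j) := by
  set W : ℕ → ℕ := fun j => A * T ^ (n - j) with hW
  have hD1 : 1 ≤ ∏ p ∈ P, p ^ κ p := prod_pos fun p hp => pow_pos (hP p hp).pos _
  have hτ1 : 1 ≤ τ := by simpa using hτ 1 hD1
  have hmW : ∀ j, 1 ≤ j → j < n - 1 → mm P κ j ≤ W j := fun j hj hj' =>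
    (mm_le hP hT hD hj hj').trans (Nat.le_mul_of_pos_left _ hA)
  have hc : ∀ j, 1 ≤ j → j < n - 1 → (2 * (W j / mm P κ j) + 2) * mm P κ j ≤ 4 * W j :=
    fun j hj hj' => (cnt_mul _ _).trans (by have := hmW j hj hj'; omega)
  have hprod := prod_mm (N := n - 1) fun p hp => (hκ p hp).2
  have caseA : ∀ c, 2 * W 0 + 2 * mm P κ 0 ≤ c * W 0 →
      S.card * ∏ p ∈ P, p ^ κ p ≤ c * 4 ^ n * ∏ j ∈ range (n - 1), W j := fun c hc0 => by
    have a1 := class_count 0 hP (fun _ => 1) W (fun _ => one_pos) S h h1 h2 1 1 fun S' _ hS' => by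
      rw [mul_one]
      exact card_le_one.2 fun f hf g hg => ext fun j => (hS' f hf g hg).1 j (Nat.zero_le _)
    simp only [mul_one, one_mul, Nat.not_lt_zero, if_false] at a1
    refine (Nat.mul_le_mul_right _ a1).trans ?_
    rw [← hprod, ← prod_mul_distrib]
    obtain ⟨k, rfl⟩ : ∃ k, n = k + 2 := ⟨n - 2, by omega⟩
    rw [show k + 2 - 1 = k + 1 from rfl, prod_range_succ', prod_range_succ']
    have a2 : ∏ j ∈ range k, (2 * (W (j + 1) / mm P κ (j + 1)) + 2) * mm P κ (j + 1) ≤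
        4 ^ (k + 2) * ∏ j ∈ range k, W (j + 1) := by
      refine (prod_le_prod' fun j hj => hc (j + 1) (by omega)
        (by have := mem_range.1 hj; omega)).trans ?_
      rw [prod_mul_distrib, prod_const, card_range]
      exact Nat.mul_le_mul_right _ (Nat.pow_le_pow_right (by omega) (by omega))
    exact (Nat.mul_le_mul a2 ((cnt_mul _ _).trans hc0)).trans_eq (by ring)
  have fin : ∀ c, c ≤ 40 * 72 ^ 6 * τ ^ 2 * T ^ min (n - 2) 10 →
      c * 4 ^ n * ∏ j ∈ range (n - 1), W j ≤ 40 * 72 ^ 6 * 4 ^ n * τ ^ 2 * T ^ min (n - 2) 10 *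
        ∏ j ∈ range (n - 1), W j := fun c hc =>
    Nat.mul_le_mul_right _ ((Nat.mul_le_mul_right _ hc).trans_eq (by ring))
  have hτ2 : 1 ≤ τ ^ 2 := Nat.one_le_pow _ _ hτ1
  have hT2 : ∀ k, 1 ≤ T ^ k := fun k => Nat.one_le_pow _ _ hT
  by_cases hn12 : n ≤ 12
  · refine (caseA (4 * T ^ (n - 2)) ?_).trans (fin _ ?_)
    · have a1 : mm P κ 0 ≤ T ^ (n - 2) * W 0 := by
        refine ((pow_one _).symm.trans_le ((mm_pow_le hP 0).trans hD)).trans ?_
        rw [show 2 * n - 2 = (n - 2) + (n - 0) by omega, pow_add]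
        exact Nat.mul_le_mul_left _ (Nat.le_mul_of_pos_left _ hA)
      have a2 := Nat.mul_le_mul_right (W 0) (hT2 (n - 2))
      linarith
    · rw [min_eq_left (by omega)]
      exact Nat.mul_le_mul_right _ (by omega)
  by_cases hm0 : mm P κ 0 ≤ 4 * W 0
  · refine (caseA 10 (by omega)).trans (fin _ ?_)
    have := Nat.mul_le_mul hτ2 (hT2 (min (n - 2) 10))
    rw [mul_assoc]
    omega
  rw [min_eq_right (by omega)]
  set R := mm P κ 1 with hR
  set q := ∏ p ∈ P.filter fun p => κ p = 1, p with hq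
  let u : ℕ → ℕ := fun j => ∏ p ∈ P.filter fun p => 1 < κ p ∧ κ p ≤ j, p
  have hqR : mm P κ 0 = q * R := by
    rw [mm, ← prod_filter_mul_prod_filter_not _ fun p => κ p = 1, filter_filter, filter_filter]
    congr 1 <;> refine prod_congr (filter_congr fun p _ => by omega) fun _ _ => rfl
  have huR : ∀ j, 1 ≤ j → u j * mm P κ j = R := fun j hj => by
    rw [hR, mm, mm, ← prod_filter_mul_prod_filter_not (P.filter fun p => 1 < κ p)
      fun p => κ p ≤ j, filter_filter, filter_filter]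
    congr 1
    exact prod_congr (filter_congr fun p _ => by omega) fun _ _ => rfl
  have hu0 : u 0 = 1 := prod_eq_one fun p hp => by have := (mem_filter.1 hp).2; omega
  have hpr : ∀ (Q : ℕ → Prop) [DecidablePred Q], ∀ p ∈ P.filter Q, p.Prime :=
    fun _ _ p hp => hP p (mem_filter.1 hp).1
  obtain ⟨k, hk⟩ : ∃ k, n - 1 = 6 + k := ⟨n - 7, by omega⟩
  have hmpos : ∀ j, 0 < mm P κ j := fun j => prod_pos fun p hp => (hpr _ p hp).pos
  have hqD : q * R ^ 2 ≤ ∏ p ∈ P, p ^ κ p := by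
    rw [← hprod, show n - 1 = 2 + (4 + k) by omega, prod_range_add, prod_range_succ,
      prod_range_one, hqR, sq, mul_assoc q]
    exact Nat.le_mul_of_pos_right _ (prod_pos fun j _ => hmpos _)
  have a1 := class_count 6 hP u W (fun j => prod_pos fun p hp => (hpr _ p hp).pos) S h h1 h2
    (q * R ^ 6) (40 * 72 ^ 6 * τ ^ 2 * (W 0 * W 1 ^ 5)) fun S' hS' hS'' => by
      refine fibre_count (squarefree_prod_of_pairwise_isCoprime (fun a ha b hb e => ?_)
        fun p hp => (hpr _ p hp).squarefree) (hmpos 1) ?_ (W 0) (W 1) τ ?_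
        ((not_le.1 hm0).trans_eq hqR) ?_
        (hmW 1 le_rfl (by omega)) (fun N hN => hτ N (hN.trans (le_trans
          (Nat.le_mul_of_pos_right _ (pow_pos (hmpos 1) 2)) hqD))) S'
        (fun f hf g hg => ⟨(hS'' f hf g hg).1, fun j => ?_⟩) fun f hf => ⟨?_, fun j hj hj' => ?_, ?_⟩
      · exact Nat.coprime_iff_isRelPrime.1 ((Nat.coprime_primes (hpr _ a ha) (hpr _ b hb)).2 e)
      · refine Nat.Coprime.prod_left fun a ha => Nat.Coprime.prod_right fun b hb =>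
          (Nat.coprime_primes (hpr _ a ha) (hpr _ b hb)).2 fun e => ?_
        have := (mem_filter.1 ha).2
        have := (mem_filter.1 hb).2
        subst e
        omega
      · exact Nat.mul_le_mul_left _ (Nat.pow_le_pow_right hT (by omega))
      · refine hqD.trans (hD.trans ?_)
        rw [show 2 * n - 2 = (n - 1) * 2 by omega, pow_mul]
        exact Nat.pow_le_pow_left (Nat.le_mul_of_pos_left _ hA) 2
      · refine prod_dvd_int (hpr _) fun p hp => h f (hS' hf) g (hS' hg) p (mem_filter.1 hp).1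
          (fun l hl _ => ?_) j
        by_cases hl6 : 6 ≤ l
        · rw [(hS'' f hf g hg).1 l hl6, sub_self]
          exact dvd_zero _
        · refine Dvd.dvd.trans ?_ ((hS'' f hf g hg).2 l (by omega) (by omega))
          exact Int.natCast_dvd_natCast.2 (dvd_prod_of_mem _
            (mem_filter.2 ⟨(mem_filter.1 hp).1, (mem_filter.1 hp).2, hl⟩))
      · exact h2 f (hS' hf) 0 (by omega)
      · refine (h2 f (hS' hf) j (by omega)).trans ?_
        exact_mod_cast Nat.mul_le_mul_left A (Nat.pow_le_pow_right hT (by omega))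
      · exact Dbl.prod (hpr _) fun p hp => h3 f (hS' hf) p (mem_filter.1 hp).1 (mem_filter.1 hp).2
  rw [hk, prod_range_add] at a1
  rw [← hprod, hk, prod_range_add, prod_range_add]
  have a2 : (∏ j ∈ range k, if 6 + j < 6 then u (6 + j) else
      2 * (W (6 + j) / mm P κ (6 + j)) + 2) * ∏ j ∈ range k, mm P κ (6 + j) ≤
        4 ^ n * ∏ j ∈ range k, W (6 + j) := by
    rw [← prod_mul_distrib]
    refine (prod_le_prod' (g := fun j => 4 * W (6 + j)) fun j hj => ?_).trans ?_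
    · rw [if_neg (by omega)]
      exact hc _ (by omega) (by have := mem_range.1 hj; omega)
    · rw [prod_mul_distrib, prod_const, card_range]
      exact Nat.mul_le_mul_right _ (Nat.pow_le_pow_right (by omega) (by omega))
  have a3 : W 1 ^ 5 = T ^ 10 * (W 1 * W 2 * W 3 * W 4 * W 5) := by
    obtain ⟨l, rfl⟩ : ∃ l, n = l + 5 := ⟨n - 5, by omega⟩
    simp only [hW, show l + 5 - 1 = l + 4 from rfl, show l + 5 - 2 = l + 3 from rfl,
      show l + 5 - 3 = l + 2 from rfl, show l + 5 - 4 = l + 1 from rfl, Nat.add_sub_cancel]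
    ring
  simp only [prod_range_succ, range_zero, prod_empty, one_mul, Nat.ofNat_pos, Nat.one_lt_ofNat,
    Nat.reduceLT, if_true, hu0] at a1 ⊢
  have a4 : (u 1 * mm P κ 1) * (u 2 * mm P κ 2) * (u 3 * mm P κ 3) * (u 4 * mm P κ 4) *
      (u 5 * mm P κ 5) = R ^ 5 := by
    rw [huR 1 le_rfl, huR 2 (by omega), huR 3 (by omega), huR 4 (by omega), huR 5 (by omega)]
    ring
  refine Nat.le_of_mul_le_mul_right ?_ (pow_pos (hmpos 1) 5)
  rw [hqR]
  generalize (∏ j ∈ range k, if 6 + j < 6 then u (6 + j) else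
      2 * (W (6 + j) / mm P κ (6 + j)) + 2) = X1 at *
  generalize ∏ j ∈ range k, mm P κ (6 + j) = X2 at *
  calc _ = S.card * (q * R ^ 6) *
        (mm P κ 1 * mm P κ 2 * mm P κ 3 * mm P κ 4 * mm P κ 5 * X2) := by rw [← hR]; ring
    _ ≤ _ := Nat.mul_le_mul_right _ a1
    _ = 40 * 72 ^ 6 * τ ^ 2 * (W 0 * W 1 ^ 5) * ((u 1 * mm P κ 1) * (u 2 * mm P κ 2) *
        (u 3 * mm P κ 3) * (u 4 * mm P κ 4) * (u 5 * mm P κ 5)) * (X1 * X2) := by ring
    _ ≤ _ := Nat.mul_le_mul_left _ a2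
    _ = _ := by rw [a4, a3, ← hR]; ring

theorem poly_count (n : ℕ) (hn : 2 ≤ n) : ∃ E : ℕ, ∀ (A T τ : ℕ) (P : Finset ℕ) (κ : ℕ → ℕ),
    1 ≤ A → 1 ≤ T → (∀ p ∈ P, p.Prime ∧ n < p) → (∀ p ∈ P, 1 ≤ κ p ∧ κ p ≤ n - 1) →
    ∏ p ∈ P, p ^ κ p ≤ T ^ (2 * n - 2) → (∀ N ≤ ∏ p ∈ P, p ^ κ p, N.divisors.card ≤ τ) →
    ∀ S : Finset ℤ[X], (∀ f ∈ S, f.Monic ∧ f.natDegree = n ∧ f.coeff (n - 1) = 0 ∧
      (∀ j, j < n - 1 → |f.coeff j| ≤ (A * T ^ (n - j) : ℕ)) ∧
      ∀ p ∈ P, Few n (κ p) p f ∧ (κ p = 1 → Dbl p f)) →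
    S.card * ∏ p ∈ P, p ^ κ p ≤ (40 * 72 ^ 6 * 4 ^ n * τ ^ 2 * T ^ min (n - 2) 10 *
      ∏ j ∈ range (n - 1), A * T ^ (n - j)) * E ^ P.card := by
  classical
  obtain ⟨E, hE⟩ := colour n
  choose col hcol hcol' using hE
  refine ⟨E + 1, fun A T τ P κ hA hT hP hκ hD hτ S hS => ?_⟩
  refine (card_mul_le S (P.pi fun _ => range (E + 1)) (fun f p _ => col p (κ p) f)
    (fun f _ => mem_pi.2 fun p _ => mem_range.2 (Nat.lt_succ_of_le (hcol _ _ _))) _ _
    fun b _ => count_star hn hA hT (fun p hp => (hP p hp).1) hκ hD hτ _ ?_ ?_ ?_ ?_).trans_eq ?_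
  · intro f hf g hg p hp
    obtain ⟨a1, a2⟩ := mem_filter.1 hf
    obtain ⟨b1, b2⟩ := mem_filter.1 hg
    exact hcol' p (κ p) (hP p hp).1 (hP p hp).2 f g (hS f a1).1 (hS f a1).2.1
      ((hS f a1).2.2.2.2 p hp).1 (hS g b1).1 (hS g b1).2.1 ((hS g b1).2.2.2.2 p hp).1
      (congrFun (congrFun (a2.trans b2.symm) p) hp)
  · intro f hf g hg j hj
    obtain ⟨a1, a2, a3, -⟩ := hS f (mem_filter.1 hf).1
    obtain ⟨b1, b2, b3, -⟩ := hS g (mem_filter.1 hg).1
    rcases lt_trichotomy j n with h | h | h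
    · rw [show j = n - 1 by omega, a3, b3]
    · have c1 := a1.coeff_natDegree
      have c2 := b1.coeff_natDegree
      rw [a2] at c1
      rw [b2] at c2
      rw [h, c1, c2]
    · rw [coeff_eq_zero_of_natDegree_lt (by omega), coeff_eq_zero_of_natDegree_lt (by omega)]
  · exact fun f hf => (hS f (mem_filter.1 hf).1).2.2.2.1
  · exact fun f hf p hp => ((hS f (mem_filter.1 hf).1).2.2.2.2 p hp).2
  · rw [card_pi, prod_const, card_range]

end Pool.Agent.NF76
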