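import Mathlib

set_option autoImplicit false

namespace Pool.Agent.NF76

open Finset

lemma div_bound0 {ε : ℝ} (hε : 0 < ε) : ∃ C : ℝ, 0 < C ∧ ∀ M : ℕ, M ≠ 0 →
    ((∏ p ∈ M.primeFactors, (M.factorization p + 2) : ℕ) : ℝ) ≤ C * (M : ℝ) ^ ε := by
  set η := ε * Real.log 2 with hη
  have hη0 : 0 < η := mul_pos hε (Real.log_pos one_lt_two)
  obtain ⟨B, hB⟩ := exists_nat_ge ((3 : ℝ) ^ (1 / ε))
  have h0 : (1 : ℝ) ≤ 2 + 1 / η := by have := one_div_pos.2 hη0; linarith
  refine ⟨(2 + 1 / η) ^ B, by positivity, fun M hM => ?_⟩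
  have key : ∀ p ∈ M.primeFactors, ((M.factorization p + 2 : ℕ) : ℝ) ≤
      (if p < B then 2 + 1 / η else 1) * (((p ^ M.factorization p : ℕ) : ℝ)) ^ ε := by
    intro p hp
    have hp' := Nat.prime_of_mem_primeFactors hp
    have he : 1 ≤ M.factorization p :=
      (hp'.dvd_iff_one_le_factorization hM).1 (Nat.dvd_of_mem_primeFactors hp)
    generalize M.factorization p = e at he
    have hp2 : (2 : ℝ) ≤ p := by exact_mod_cast hp'.two_le
    have e1 : (((p ^ e : ℕ) : ℝ)) ^ ε = ((p : ℝ) ^ ε) ^ e := by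
      rw [Nat.cast_pow, ← Real.rpow_natCast, ← Real.rpow_mul (by linarith), mul_comm,
        Real.rpow_mul_natCast (by linarith)]
    rw [e1]
    split_ifs with h
    · have h1 : Real.exp η ≤ (p : ℝ) ^ ε := by
        rw [hη, mul_comm, ← Real.rpow_def_of_pos two_pos]
        exact Real.rpow_le_rpow (by norm_num) hp2 hε.le
      have h2 : 1 + e * η ≤ ((p : ℝ) ^ ε) ^ e := by
        refine le_trans ?_ (pow_le_pow_left₀ (Real.exp_pos _).le h1 e)
        rw [← Real.exp_nat_mul]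
        linarith [Real.add_one_le_exp (e * η)]
      refine le_trans ?_ (mul_le_mul_of_nonneg_left h2 (by linarith))
      have h3 : (2 + 1 / η) * (1 + e * η) = 2 + e + (1 / η + 2 * e * η) := by field_simp; ring
      rw [h3]
      push_cast
      have : 0 ≤ 1 / η + 2 * e * η := by positivity
      linarith
    · have h1 : (3 : ℝ) ≤ (p : ℝ) ^ ε := by
        have h2 : (3 : ℝ) ^ (1 / ε) ≤ p := hB.trans (by exact_mod_cast not_lt.1 h)
        have := Real.rpow_le_rpow (by positivity) h2 hε.le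
        rwa [← Real.rpow_mul (by norm_num), one_div_mul_cancel hε.ne', Real.rpow_one] at this
      rw [one_mul]
      refine le_trans ?_ (pow_le_pow_left₀ (by norm_num) h1 e)
      have : e + 2 ≤ 3 ^ e := by
        clear e1
        induction e, he using Nat.le_induction with
        | base => norm_num
        | succ e _ ih => rw [pow_succ]; omega
      exact_mod_cast this
  rw [Nat.cast_prod]
  refine (prod_le_prod (fun _ _ => by positivity) key).trans ?_
  rw [prod_mul_distrib, Real.finsetProd_rpow _ _ (fun _ _ => by positivity), ← Nat.cast_prod]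
  have h1 : ∏ p ∈ M.primeFactors, p ^ M.factorization p = M := Nat.prod_factorization_pow_eq_self hM
  rw [h1]
  refine mul_le_mul_of_nonneg_right ?_ (by positivity)
  rw [prod_ite, prod_const, prod_const_one, mul_one]
  refine pow_le_pow_right₀ h0 ((card_le_card fun p hp => ?_).trans (card_range B).le)
  exact mem_range.2 (mem_filter.1 hp).2

lemma div_bound {ε : ℝ} (hε : 0 < ε) : ∃ C : ℝ, 1 ≤ C ∧ ∀ M N : ℕ, M ≤ N →
    (M.divisors.card : ℝ) ≤ C * (N : ℝ) ^ ε := by
  obtain ⟨C, hC, h⟩ := div_bound0 hε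
  refine ⟨C + 1, by linarith, fun M N hMN => ?_⟩
  rcases eq_or_ne M 0 with rfl | hM
  · simp only [Nat.divisors_zero, card_empty, Nat.cast_zero]; positivity
  · have h1 : M.divisors.card ≤ ∏ p ∈ M.primeFactors, (M.factorization p + 2) := by
      rw [Nat.card_divisors hM]
      exact prod_le_prod' fun p _ => by omega
    have h2 : (M : ℝ) ^ ε ≤ (N : ℝ) ^ ε :=
      Real.rpow_le_rpow (by positivity) (by exact_mod_cast hMN) hε.le
    calc (M.divisors.card : ℝ) ≤ _ := by exact_mod_cast h1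
      _ ≤ C * (M : ℝ) ^ ε := h M hM
      _ ≤ (C + 1) * (N : ℝ) ^ ε := by gcongr; linarith

lemma omega_bound (E : ℕ) {ε : ℝ} (hε : 0 < ε) : ∃ C : ℝ, 1 ≤ C ∧ ∀ M : ℕ, M ≠ 0 →
    ((E ^ M.primeFactors.card : ℕ) : ℝ) ≤ C * (M : ℝ) ^ ε := by
  obtain ⟨C, hC, h⟩ := div_bound (ε := ε / (E + 1)) (by positivity)
  refine ⟨C ^ (E + 1), one_le_pow₀ hC, fun M hM => ?_⟩
  have h1 : 2 ^ M.primeFactors.card ≤ M.divisors.card := by
    rw [Nat.card_divisors hM, ← prod_const]
    refine prod_le_prod' fun p hp => ?_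
    have := ((Nat.prime_of_mem_primeFactors hp).dvd_iff_one_le_factorization hM).1
      (Nat.dvd_of_mem_primeFactors hp)
    omega
  have h2 : E ^ M.primeFactors.card ≤ M.divisors.card ^ (E + 1) := by
    calc E ^ M.primeFactors.card ≤ (2 ^ (E + 1)) ^ M.primeFactors.card :=
          Nat.pow_le_pow_left (Nat.lt_two_pow_self.le.trans (Nat.pow_le_pow_right (by omega)
            (by omega))) _
      _ = (2 ^ M.primeFactors.card) ^ (E + 1) := by rw [← pow_mul, ← pow_mul, mul_comm]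
      _ ≤ _ := Nat.pow_le_pow_left h1 _
  calc ((E ^ M.primeFactors.card : ℕ) : ℝ) ≤ (M.divisors.card : ℝ) ^ (E + 1) := by
        exact_mod_cast h2
    _ ≤ (C * (M : ℝ) ^ (ε / (E + 1))) ^ (E + 1) := by gcongr; exact h M M le_rfl
    _ = C ^ (E + 1) * (M : ℝ) ^ ε := by
        rw [mul_pow, ← Real.rpow_natCast ((M : ℝ) ^ _), ← Real.rpow_mul (by positivity)]
        congr 2
        push_cast
        field_simp

lemma sum_char {q : ℕ} [NeZero q] (u : Fin 4 → ZMod q) :
    ∑ w : Fin 4 → ZMod q, ZMod.stdAddChar (∑ i, w i * u i) =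
      if u = 0 then (q : ℂ) ^ 4 else 0 := by
  have h1 : ∀ w : Fin 4 → ZMod q, ZMod.stdAddChar (∑ i, w i * u i) =
      ∏ i, ZMod.stdAddChar (w i * u i) := by
    intro w
    simp only [Fin.sum_univ_four, Fin.prod_univ_four, AddChar.map_add_eq_mul]
  simp only [h1]
  rw [← Fintype.piFinset_univ, ← prod_univ_sum (fun _ => univ)
    (fun i (t : ZMod q) => ZMod.stdAddChar (t * u i))]
  simp only [AddChar.sum_mulShift _ (ZMod.isPrimitive_stdAddChar q), ZMod.card]
  split_ifs with h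
  · simp [h]
  · obtain ⟨i, hi⟩ := Function.ne_iff.1 h
    exact prod_eq_zero (mem_univ i) (by rw [if_neg (show ¬ u i = 0 from hi)]; simp)

lemma parseval {q : ℕ} [NeZero q] {α : Type*} (s : Finset α) (x : α → Fin 4 → ZMod q)
    (hx : Set.InjOn x s) :
    ∑ w : Fin 4 → ZMod q, ‖∑ a ∈ s, ZMod.stdAddChar (∑ i, w i * x a i)‖ ^ 2 =
      (q : ℝ) ^ 4 * s.card := by
  classical
  have h1 : ∀ w : Fin 4 → ZMod q, ((‖∑ a ∈ s, ZMod.stdAddChar (∑ i, w i * x a i)‖ ^ 2 : ℝ) : ℂ) =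
      ∑ a ∈ s, ∑ b ∈ s, ZMod.stdAddChar (∑ i, w i * (x a - x b) i) := by
    intro w
    rw [Complex.ofReal_pow, ← Complex.mul_conj', map_sum, sum_mul_sum]
    refine sum_congr rfl fun a _ => sum_congr rfl fun b _ => ?_
    rw [← AddChar.map_neg_eq_conj, ← AddChar.map_add_eq_mul, ← sum_neg_distrib, ← sum_add_distrib]
    congr 1
    exact sum_congr rfl fun i _ => by simp only [Pi.sub_apply]; ring
  apply Complex.ofReal_injective
  rw [Complex.ofReal_sum]
  simp only [h1]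
  rw [sum_comm]
  have h2 : ∀ a ∈ s, ∑ w : Fin 4 → ZMod q, ∑ b ∈ s,
      ZMod.stdAddChar (∑ i, w i * (x a - x b) i) = (q : ℂ) ^ 4 := by
    intro a ha
    rw [sum_comm]
    simp only [sum_char]
    rw [sum_eq_single_of_mem a ha]
    · simp
    · intro b hb hab
      exact if_neg fun h => hab (hx hb ha (sub_eq_zero.1 h).symm)
  rw [sum_congr rfl h2]
  simp [mul_comm]

lemma re_char {q : ℕ} [NeZero q] (t : ℤ) (ht : 6 * |t| ≤ q) :
    1 / 2 ≤ (ZMod.stdAddChar (t : ZMod q)).re := by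
  have hq : (0 : ℝ) < q := by exact_mod_cast Nat.pos_of_ne_zero (NeZero.ne q)
  rw [ZMod.stdAddChar_coe]
  have h1 : (2 * Real.pi * Complex.I * t / q : ℂ) = ((2 * Real.pi * t / q : ℝ) : ℂ) * Complex.I := by
    push_cast; ring
  rw [h1, Complex.exp_ofReal_mul_I_re, ← Real.cos_abs, ← Real.cos_pi_div_three]
  have h2 : (6 : ℝ) * |(t : ℝ)| ≤ q := by exact_mod_cast ht
  refine Real.cos_le_cos_of_nonneg_of_le_pi (abs_nonneg _) (by linarith [Real.pi_pos]) ?_
  rw [abs_div, abs_mul, abs_of_pos hq, abs_of_pos Real.two_pi_pos, div_le_iff₀ hq]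
  nlinarith [Real.pi_pos]

/-- Transference: a large sieve type inequality. -/
lemma transfer {q : ℕ} [NeZero q] {α β : Type*} (s : Finset α) (V : Finset β)
    (x : α → Fin 4 → ZMod q) (hx : Set.InjOn x s) (ψ : β → Fin 4 → ZMod q) (Z : ℕ)
    (hZ : ∀ w, (V.filter (fun v => ψ v = w)).card ≤ Z)
    (h : ∀ v ∈ V, ∀ a ∈ s, ∃ t : ℤ, 6 * |t| ≤ q ∧ (t : ZMod q) = ∑ i, ψ v i * x a i) :
    V.card * s.card ≤ 4 * Z * q ^ 4 := by
  classical
  rcases s.eq_empty_or_nonempty with rfl | hs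
  · simp
  have hs0 : (0 : ℝ) < s.card := by exact_mod_cast hs.card_pos
  set F : (Fin 4 → ZMod q) → ℝ := fun w => ‖∑ a ∈ s, ZMod.stdAddChar (∑ i, w i * x a i)‖ ^ 2
    with hF
  have h1 : ∀ v ∈ V, ((s.card : ℝ) / 2) ^ 2 ≤ F (ψ v) := by
    intro v hv
    refine pow_le_pow_left₀ (by positivity) (le_trans ?_ (Complex.re_le_norm _)) 2
    rw [Complex.re_sum]
    calc (s.card : ℝ) / 2 = ∑ a ∈ s, (1 / 2 : ℝ) := by simp [div_eq_mul_inv]
      _ ≤ _ := sum_le_sum fun a ha => by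
        obtain ⟨t, ht, ht'⟩ := h v hv a ha
        rw [← ht']
        exact re_char t ht
  have h2 : ∑ v ∈ V, F (ψ v) ≤ Z * ((q : ℝ) ^ 4 * s.card) := by
    rw [← parseval s x hx, mul_sum, ← sum_fiberwise V ψ]
    refine sum_le_sum fun w _ => ?_
    rw [sum_congr rfl (g := fun _ => F w) (fun v hv => by rw [(mem_filter.1 hv).2]), sum_const,
      nsmul_eq_mul]
    exact mul_le_mul_of_nonneg_right (by exact_mod_cast hZ w) (by positivity)
  have h3 := (card_nsmul_le_sum V _ _ h1).trans h2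
  rw [nsmul_eq_mul] at h3
  have h4 : (V.card : ℝ) * s.card ≤ 4 * Z * q ^ 4 := by
    refine le_of_mul_le_mul_right ?_ hs0
    nlinarith
  exact_mod_cast h4

end Pool.Agent.NF76
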