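import Mathlib

set_option autoImplicit false

namespace Pool.Agent.NF76

open Polynomial

theorem zero_lemma {F : Type*} [Field F] {n k : ℕ} (hn : ∀ i : ℕ, 0 < i → i ≤ n → (i : F) ≠ 0)
    (w : Fin n → F) [DecidableEq F] (hw : (Finset.univ.image w).card + k ≤ n)
    (hc : ∀ j, k ≤ j → j < n → (∏ l, (X - C (w l))).coeff j = 0) (l : Fin n) : w l = 0 := by
  set f : F[X] := ∏ l, (X - C (w l)) with hf
  have hfm : f.Monic := monic_prod_of_monic _ _ (fun i _ => monic_X_sub_C _)
  have hfd : f.natDegree = n := by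
    rw [hf, natDegree_prod_of_monic _ _ (fun i _ => monic_X_sub_C _)]; simp
  set g : F[X] := ∏ v ∈ Finset.univ.image w, (X - C v) with hg
  have hgm : g.Monic := monic_prod_of_monic _ _ (fun i _ => monic_X_sub_C _)
  have hgd : g.natDegree = (Finset.univ.image w).card := by
    rw [hg, natDegree_prod_of_monic _ _ (fun i _ => monic_X_sub_C _)]; simp
  set h : F[X] := C (n : F) * f - X * derivative f with hh
  have hcoef : ∀ j, h.coeff j = ((n : F) - j) * f.coeff j := by
    intro j
    rw [hh, coeff_sub, coeff_C_mul]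
    rcases j with _ | j
    · simp
    · rw [coeff_X_mul, coeff_derivative]; push_cast; ring
  have hdvd : f ∣ g * derivative f := by
    rw [hf, derivative_prod_finset, Finset.mul_sum]
    refine Finset.dvd_sum (fun a _ => ?_)
    have h1 : (X - C (w a)) ∣ g :=
      Finset.dvd_prod_of_mem (fun v => X - C v) (Finset.mem_image_of_mem w (Finset.mem_univ a))
    obtain ⟨u, hu⟩ := h1
    rw [hu, ← Finset.mul_prod_erase Finset.univ (fun l => X - C (w l)) (Finset.mem_univ a)]
    exact ⟨u * derivative (X - C (w a)), by ring⟩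
  have hdvd2 : f ∣ g * h := by
    rw [hh, mul_sub]
    refine dvd_sub ⟨g * C (n : F), by ring⟩ ?_
    obtain ⟨u, hu⟩ := hdvd
    exact ⟨X * u, by rw [mul_left_comm, hu]; ring⟩
  have h0 : h = 0 := by
    by_contra hne
    have hlt : h.natDegree < k := by
      by_contra hge
      push Not at hge
      have h2 := hcoef h.natDegree
      have h3 : h.coeff h.natDegree ≠ 0 := leadingCoeff_ne_zero.2 hne
      rcases lt_trichotomy h.natDegree n with h4 | h4 | h4
      · rw [hc _ hge h4, mul_zero] at h2; exact h3 h2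
      · rw [h4] at h2 h3; rw [sub_self, zero_mul] at h2; exact h3 h2
      · rw [coeff_eq_zero_of_natDegree_lt (p := f) (by omega), mul_zero] at h2; exact h3 h2
    have h5 := natDegree_le_of_dvd hdvd2 (mul_ne_zero hgm.ne_zero hne)
    rw [natDegree_mul hgm.ne_zero hne] at h5
    omega
  have hfx : f = X ^ n := by
    ext j
    rw [coeff_X_pow]
    rcases lt_trichotomy j n with h4 | h4 | h4
    · have h2 := hcoef j
      rw [h0, coeff_zero] at h2
      have h6 := hn (n - j) (by omega) (by omega)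
      rw [Nat.cast_sub h4.le] at h6
      rw [if_neg h4.ne]
      exact (mul_eq_zero.1 h2.symm).resolve_left h6
    · rw [if_pos h4, h4, ← hfd]; exact hfm
    · rw [if_neg h4.ne']; exact coeff_eq_zero_of_natDegree_lt (by omega)
  have h7 : eval (w l) f = 0 := by
    rw [hf, eval_prod]
    exact Finset.prod_eq_zero (Finset.mem_univ l) (by simp)
  rw [hfx] at h7
  simp only [eval_pow, eval_X] at h7
  exact pow_eq_zero_iff (by have := l.2; omega) |>.1 h7

theorem coeff_scale {K : Type*} [CommRing K] {n : ℕ} (w : Fin n → K) (t : K) (j : ℕ)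
    (hj : j ≤ n) :
    (∏ l, (X - C (t * w l))).coeff j = t ^ (n - j) * (∏ l, (X - C (w l))).coeff j := by
  have h1 := Multiset.prod_X_sub_C_coeff (Finset.univ.val.map w) (k := j) (by simpa using hj)
  have h2 := Multiset.prod_X_sub_C_coeff (Finset.univ.val.map (fun l => t * w l)) (k := j)
    (by simpa using hj)
  have h3 := Multiset.pow_smul_esymm t (n - j) (Finset.univ.val.map w)
  simp only [Multiset.map_map, Function.comp_def, Multiset.card_map, Finset.card_val,
    Finset.card_univ, Fintype.card_fin, smul_eq_mul] at h1 h2 h3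
  rw [Finset.prod_eq_multiset_prod, Finset.prod_eq_multiset_prod, h1, h2, ← h3]
  ring

theorem map_prod_coeff {A B : Type*} [CommRing A] [CommRing B] (φ : A →+* B) {n : ℕ}
    (w : Fin n → A) (j : ℕ) :
    φ ((∏ l, (X - C (w l))).coeff j) = (∏ l, (X - C (φ (w l)))).coeff j := by
  rw [← coeff_map, Polynomial.map_prod]
  simp

theorem mem_valuationSubring {K : Type*} [Field K] (V : ValuationSubring K) {n k : ℕ}
    (hn : ∀ i : ℕ, 0 < i → i ≤ n → ∃ u ∈ V, u * (i : K) = 1) (x : Fin n → K)
    (c : Fin n → Fin n) (hc : (Finset.univ.image c).card + k ≤ n)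
    (hP : ∀ j, k ≤ j → j < n → (∏ l, (X - C (x (c l)))).coeff j ∈ V) (l : Fin n) :
    x (c l) ∈ V := by
  classical
  obtain ⟨l0, -, hl0⟩ := Finset.exists_max_image Finset.univ
    (fun l => V.valuation (x (c l))) ⟨l, Finset.mem_univ l⟩
  suffices h : x (c l0) ∈ V by
    rw [← V.valuation_le_one_iff] at h ⊢
    exact (hl0 l (Finset.mem_univ l)).trans h
  by_contra hno
  set t := x (c l0) with ht
  have ht0 : t ≠ 0 := fun h => hno (h ▸ V.zero_mem)
  have hti : t⁻¹ ∈ V := (V.mem_or_inv_mem t).resolve_left hno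
  have hlt : V.valuation t⁻¹ < 1 := by
    rw [map_inv₀]
    have : 1 < V.valuation t := by
      rw [← V.valuation_le_one_iff] at hno; exact not_le.1 hno
    exact inv_lt_one_of_one_lt₀ this
  have hw : ∀ l, t⁻¹ * x (c l) ∈ V := by
    intro l
    rw [← V.valuation_le_one_iff, map_mul, map_inv₀]
    have h0 : V.valuation t ≠ 0 := by simpa using ht0
    rw [inv_mul_le_iff₀ (zero_lt_iff.2 h0), mul_one]
    exact hl0 l (Finset.mem_univ l)
  let w : Fin n → V := fun l => ⟨t⁻¹ * x (c l), hw l⟩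
  let ρ := IsLocalRing.residue V
  have key := zero_lemma (F := IsLocalRing.ResidueField V) (n := n) (k := k) ?_
    (fun l => ρ (w l)) ?_ ?_ l0
  · have : w l0 = 1 := Subtype.ext (by simp [w, ← ht, ht0])
    simp only [this, map_one] at key
    exact one_ne_zero key
  · intro i hi hi'
    obtain ⟨u, hu, hu1⟩ := hn i hi hi'
    have h1 : (⟨u, hu⟩ : V) * (i : V) = 1 := Subtype.ext (by simpa using hu1)
    have h2 := congrArg ρ h1
    rw [map_mul, map_natCast, map_one] at h2
    exact right_ne_zero_of_mul_eq_one h2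
  · refine le_trans (Nat.add_le_add_right ?_ k) hc
    have : (Finset.univ.image fun l => ρ (w l)) ⊆ (Finset.univ.image c).image
        (fun i => if h : t⁻¹ * x i ∈ V then ρ ⟨t⁻¹ * x i, h⟩ else 0) := by
      intro z hz
      obtain ⟨l, -, rfl⟩ := Finset.mem_image.1 hz
      exact Finset.mem_image.2 ⟨c l, Finset.mem_image_of_mem c (Finset.mem_univ l),
        by rw [dif_pos (hw l)]⟩
    exact (Finset.card_le_card this).trans Finset.card_image_le
  · intro j hj hj'
    rw [← map_prod_coeff, IsLocalRing.residue_eq_zero_iff, V.valuation_lt_one_iff]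
    have h1 := map_prod_coeff V.subtype w j
    have h2 : ∀ l, V.subtype (w l) = t⁻¹ * x (c l) := fun l => rfl
    simp only [h2] at h1
    rw [coeff_scale _ _ _ hj'.le] at h1
    have h3 : ((((∏ l, (X - C (w l))).coeff j : V)) : K) = _ := h1
    rw [h3, map_mul, map_pow]
    have h4 := (V.valuation_le_one_iff _).2 (hP j hj hj')
    exact mul_lt_one_of_lt_of_le (pow_lt_one₀ zero_le hlt (by omega)) h4

theorem exists_monic_aux {R : Type*} [CommRing R] [IsDomain R] {n k : ℕ} (x : Fin n → R)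
    (s0 : Set R) (hn : ∀ i : ℕ, 0 < i → i ≤ n → ∃ u ∈ s0, u * (i : R) = 1)
    (c : Fin n → Fin n) (hc : (Finset.univ.image c).card + k ≤ n)
    (hP : ∀ j, k ≤ j → j < n → (∏ l, (X - C (x (c l)))).coeff j ∈ s0) (l : Fin n) :
    ∃ q : (Subring.closure s0)[X], q.Monic ∧ eval₂ (Subring.closure s0).subtype (x (c l)) q = 0 := by
  let K := FractionRing R
  let ι : R →+* K := algebraMap R K
  have hι : Function.Injective ι := IsFractionRing.injective R K
  have hint : ι (x (c l)) ∈ (integralClosure (Subring.closure (ι '' s0)) K).toSubring := by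
    rw [← iInf_valuationSubring_superset, Subring.mem_iInf]
    rintro ⟨V, hV⟩
    refine mem_valuationSubring V (n := n) (k := k) ?_ (fun i => ι (x i)) c hc ?_ l
    · intro i hi hi'
      obtain ⟨u, hu, hu'⟩ := hn i hi hi'
      refine ⟨ι u, hV ⟨_, hu, rfl⟩, ?_⟩
      have h2 := congrArg ι hu'
      rwa [map_mul, map_natCast, map_one] at h2
    · intro j hj hj'
      rw [← map_prod_coeff ι (fun l => x (c l))]
      exact hV ⟨_, hP j hj hj', rfl⟩
  obtain ⟨p, hpm, hp0⟩ : IsIntegral (Subring.closure (ι '' s0)) (ι (x (c l))) := hint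
  have hl : p.map (Subring.subtype _) ∈ lifts (ι.comp (Subring.closure s0).subtype) := by
    rw [lifts_iff_coeff_lifts]
    intro i
    rw [coeff_map]
    have h1 := (p.coeff i).2
    have h2 : Subring.closure (ι '' s0) = (Subring.closure s0).map ι :=
      (RingHom.map_closure ι s0).symm
    obtain ⟨z, hz, hz'⟩ :=
      Subring.mem_map.1 (h2 ▸ h1 : (p.coeff i : K) ∈ (Subring.closure s0).map ι)
    exact ⟨⟨z, hz⟩, hz'⟩
  obtain ⟨q, hq, -, hqm⟩ := lifts_and_degree_eq_and_monic hl (hpm.map _)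
  refine ⟨q, hqm, hι ?_⟩
  rw [hom_eval₂, ← eval_map, hq, eval_map, map_zero]
  exact hp0

theorem exists_monic_aux2 (R0 : Type) [CommRing R0] [IsDomain R0] (n k : ℕ)
    (hn : ∀ i : ℕ, 0 < i → i ≤ n → ∃ u : R0, u * (i : R0) = 1)
    (c : Fin n → Fin n) (hc : (Finset.univ.image c).card + k ≤ n)
    (l : Fin n) : ∃ N : ℕ, ∀ (F : Type) [Field F] (_ : R0 →+* F),
      ∀ a : ℕ → F, ∃ t : Finset F, t.card ≤ N ∧ ∀ y : Fin n → F,
        (∀ j, k ≤ j → j < n → (∏ l, (X - C (y (c l)))).coeff j = a j) → y (c l) ∈ t := by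
  classical
  let x : Fin n → MvPolynomial (Fin n) R0 := MvPolynomial.X
  let s0 : Set (MvPolynomial (Fin n) R0) :=
    {z | ∃ j, k ≤ j ∧ j < n ∧ z = (∏ l, (X - C (x (c l)))).coeff j} ∪ Set.range MvPolynomial.C
  obtain ⟨q, hqm, hq0⟩ := exists_monic_aux (n := n) (k := k) x s0 (fun i hi hi' => by
    obtain ⟨u, hu⟩ := hn i hi hi'
    refine ⟨MvPolynomial.C u, Or.inr ⟨u, rfl⟩, ?_⟩
    have h2 := congrArg (MvPolynomial.C (σ := Fin n)) hu
    rwa [map_mul, map_natCast, map_one] at h2) c hc
    (fun j hj hj' => Or.inl ⟨j, hj, hj', rfl⟩) l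
  refine ⟨q.natDegree, fun F _ φ a => ?_⟩
  by_cases hex : ∃ y0 : Fin n → F,
      ∀ j, k ≤ j → j < n → (∏ l, (X - C (y0 (c l)))).coeff j = a j
  · obtain ⟨y0, hy0⟩ := hex
    refine ⟨(q.map ((MvPolynomial.eval₂Hom φ y0).comp (Subring.closure s0).subtype)).roots.toFinset,
      ?_, ?_⟩
    · exact (Multiset.toFinset_card_le _).trans ((card_roots' _).trans natDegree_map_le)
    · intro y hy
      have hagree : (MvPolynomial.eval₂Hom φ y0).comp (Subring.closure s0).subtype =
          (MvPolynomial.eval₂Hom φ y).comp (Subring.closure s0).subtype := by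
        ext ⟨z, hz⟩
        refine RingHom.eqOn_set_closure (f := MvPolynomial.eval₂Hom φ y0)
          (g := MvPolynomial.eval₂Hom φ y) ?_ hz
        rintro z (⟨j, hj, hj', rfl⟩ | ⟨u, rfl⟩)
        · rw [map_prod_coeff, map_prod_coeff]
          simp only [x, MvPolynomial.eval₂Hom_X']
          rw [hy j hj hj', hy0 j hj hj']
        · simp
      rw [Multiset.mem_toFinset, mem_roots (hqm.map _).ne_zero, hagree, IsRoot.def, eval_map]
      have := congrArg (MvPolynomial.eval₂Hom φ y) hq0
      rw [hom_eval₂, map_zero] at this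
      simpa only [x, MvPolynomial.eval₂Hom_X'] using this
  · exact ⟨∅, Nat.zero_le _, fun y hy => (hex ⟨y, hy⟩).elim⟩

theorem exists_monic (n k : ℕ) (c : Fin n → Fin n) (hc : (Finset.univ.image c).card + k ≤ n)
    (l : Fin n) : ∃ N : ℕ, ∀ (F : Type) [Field F], (∀ i : ℕ, 0 < i → i ≤ n → (i : F) ≠ 0) →
      ∀ a : ℕ → F, ∃ t : Finset F, t.card ≤ N ∧ ∀ y : Fin n → F,
        (∀ j, k ≤ j → j < n → (∏ l, (X - C (y (c l)))).coeff j = a j) → y (c l) ∈ t := by
  have hf0 : ((n.factorial : ℕ) : ℤ) ≠ 0 := by exact_mod_cast n.factorial_ne_zero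
  have : IsDomain (Localization.Away ((n.factorial : ℕ) : ℤ)) :=
    IsLocalization.isDomain_localization (powers_le_nonZeroDivisors_of_noZeroDivisors hf0)
  obtain ⟨N, hN⟩ := exists_monic_aux2 (Localization.Away ((n.factorial : ℕ) : ℤ)) n k
    (fun i hi hi' => by
      obtain ⟨e, he⟩ := Nat.dvd_factorial hi hi'
      have hu : IsUnit (algebraMap ℤ (Localization.Away ((n.factorial : ℕ) : ℤ))
        ((n.factorial : ℕ) : ℤ)) := IsLocalization.Away.algebraMap_isUnit _
      obtain ⟨u, hu⟩ := hu.exists_left_inv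
      have h3 : algebraMap ℤ (Localization.Away ((n.factorial : ℕ) : ℤ))
        ((n.factorial : ℕ) : ℤ) = (i : _) * (e : _) := by
        rw [map_natCast, ← Nat.cast_mul, ← he]
      refine ⟨u * e, ?_⟩
      rw [← hu, h3]; ring) c hc l
  refine ⟨N, fun F _ hF a => ?_⟩
  have hfac : ∀ m, m ≤ n → ((m.factorial : ℕ) : F) ≠ 0 := by
    intro m
    induction m with
    | zero => simp
    | succ m ih =>
      intro hm
      rw [Nat.factorial_succ, Nat.cast_mul]
      exact mul_ne_zero (hF _ (by omega) hm) (ih (by omega))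
  exact hN F (IsLocalization.Away.lift ((n.factorial : ℕ) : ℤ) (g := Int.castRingHom F)
    (by simpa using hfac n le_rfl)) a

theorem fibre (n : ℕ) : ∃ E : ℕ, ∀ (k : ℕ) (F : Type) [Field F] [DecidableEq F],
    (∀ i : ℕ, 0 < i → i ≤ n → (i : F) ≠ 0) → ∀ a : ℕ → F, ∃ t : Finset (Fin n → F),
      t.card ≤ E ∧ ∀ y : Fin n → F, (Finset.univ.image y).card + k ≤ n →
        (∀ j, k ≤ j → j < n → (∏ l, (X - C (y l))).coeff j = a j) → y ∈ t := by
  classical
  have h1 : ∀ (k : ℕ) (c : Fin n → Fin n) (l : Fin n), ∃ N : ℕ,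
      (Finset.univ.image c).card + k ≤ n → ∀ (F : Type) [Field F],
      (∀ i : ℕ, 0 < i → i ≤ n → (i : F) ≠ 0) →
      ∀ a : ℕ → F, ∃ t : Finset F, t.card ≤ N ∧ ∀ y : Fin n → F,
        (∀ j, k ≤ j → j < n → (∏ l, (X - C (y (c l)))).coeff j = a j) → y (c l) ∈ t := by
    intro k c l
    by_cases hc : (Finset.univ.image c).card + k ≤ n
    · obtain ⟨N, hN⟩ := exists_monic n k c hc l
      exact ⟨N, fun _ => hN⟩
    · exact ⟨0, fun h => (hc h).elim⟩
  choose N hN using h1
  refine ⟨∑ k ∈ Finset.range (n + 1), ∑ c, ∏ l, N k c l, fun k F _ _ hF a => ?_⟩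
  by_cases hk : k ≤ n
  swap
  · exact ⟨∅, Nat.zero_le _, fun y hy _ => by omega⟩
  have h2 : ∀ c : Fin n → Fin n, ∃ t : Finset (Fin n → F), t.card ≤ ∏ l, N k c l ∧
      ∀ y : Fin n → F, (Finset.univ.image c).card + k ≤ n → (∀ l, y (c l) = y l) →
        (∀ j, k ≤ j → j < n → (∏ l, (X - C (y l))).coeff j = a j) → y ∈ t := by
    intro c
    by_cases hc : (Finset.univ.image c).card + k ≤ n
    · choose t ht ht' using fun l => hN k c l hc F hF a
      refine ⟨Fintype.piFinset t, ?_, fun y _ hy hy' => ?_⟩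
      · rw [Fintype.card_piFinset]
        exact Finset.prod_le_prod' (fun l _ => ht l)
      · rw [Fintype.mem_piFinset]
        intro l
        rw [← hy l]
        refine ht' l y (fun j hj hj' => ?_)
        simp only [hy]
        exact hy' j hj hj'
    · exact ⟨∅, Nat.zero_le _, fun y h => (hc h).elim⟩
  choose t ht ht' using h2
  refine ⟨Finset.univ.biUnion t, ?_, fun y hy hy' => ?_⟩
  · refine Finset.card_biUnion_le.trans ((Finset.sum_le_sum (fun c _ => ht c)).trans ?_)
    exact Finset.single_le_sum (f := fun k => ∑ c, ∏ l, N k c l) (fun _ _ => Nat.zero_le _)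
      (Finset.mem_range.2 (by omega))
  · let σ : F → Fin n → Fin n := fun v l => if h : ∃ i, y i = v then h.choose else l
    let c : Fin n → Fin n := fun l => σ (y l) l
    have hc1 : ∀ l, c l = (⟨l, rfl⟩ : ∃ i, y i = y l).choose := fun l => dif_pos ⟨l, rfl⟩
    have hc2 : ∀ l, y (c l) = y l := fun l => by
      rw [hc1]; exact (⟨l, rfl⟩ : ∃ i, y i = y l).choose_spec
    refine Finset.mem_biUnion.2 ⟨c, Finset.mem_univ c, ht' c y ?_ hc2 hy'⟩
    refine le_trans (Nat.add_le_add_right ?_ k) hy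
    refine Finset.card_le_card_of_injOn y (fun i _ => ?_) ?_
    · exact Finset.mem_coe.2 (Finset.mem_image_of_mem y (Finset.mem_univ i))
    · intro i hi i' hi' h
      obtain ⟨l, -, rfl⟩ := Finset.mem_image.1 (Finset.mem_coe.1 hi)
      obtain ⟨l', -, rfl⟩ := Finset.mem_image.1 (Finset.mem_coe.1 hi')
      rw [hc2, hc2] at h
      rw [hc1, hc1]
      simp only [h]

end Pool.Agent.NF76
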