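import Pool.Agent.Lib.NF98.SUCC
import Pool.Agent.Lib.NF98.PROD
import Pool.Agent.Lib.NF98.MINKA

/-! Small generators of a number field over a maximal subfield. -/

namespace Pool.Agent.NF76

open Finset NumberField Polynomial Module
open scoped IntermediateField

lemma short {K : Type} [Field K] [NumberField K] (n d T : ℕ) (hn : finrank ℚ K = n)
    (W : Submodule ℚ K) (hd : finrank ℚ W = d) (hdn : d < n)
    (hT : (discr K).natAbs ≤ T ^ (2 * (n - d))) :
    ∃ α : 𝓞 K, (α : K) ∉ W ∧ house (α : K) ≤ n ^ n * T := by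
  obtain ⟨ω, hω⟩ := NF98.blk_SUCC n K hn
  have hP := NF98.blk_PROD NF98.blk_MINKA n K hn ω hω
  obtain ⟨hli, hmono, -⟩ := hω
  obtain ⟨i, hi⟩ : ∃ i : Fin (d + 1), (ω (Fin.castLE hdn i) : K) ∉ W := by
    by_contra hc
    push Not at hc
    have h1 : LinearIndependent ℚ fun i : Fin (d + 1) => (⟨_, hc i⟩ : W) :=
      LinearIndependent.of_comp W.subtype (hli.comp _ (Fin.castLE_injective hdn))
    have := h1.fintype_card_le_finrank
    simp at this
    omega
  refine ⟨_, hi, ?_⟩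
  have h1 : ∀ j, 1 ≤ house (ω j : K) := fun j =>
    one_le_house_of_isIntegral (RingOfIntegers.isIntegral_coe _) (hli.ne_zero j)
  set a := house (ω (Fin.castLE hdn i) : K)
  have h2 : a ^ (n - d) ≤ ∏ j, house (ω j : K) := by
    calc a ^ (n - d) = ∏ _j ∈ Ici (⟨d, hdn⟩ : Fin n), a := by simp
      _ ≤ ∏ j ∈ Ici (⟨d, hdn⟩ : Fin n), house (ω j : K) := by
        refine prod_le_prod (fun _ _ => house_nonneg _) fun j hj => hmono ?_
        have := i.2
        simp only [mem_Ici, Fin.le_def, Fin.val_castLE] at hj ⊢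
        omega
      _ ≤ _ := prod_le_prod_of_subset_of_one_le (subset_univ _) (fun _ _ => house_nonneg _)
        fun j _ _ => h1 j
  have h3 : √|(discr K : ℝ)| ≤ (T : ℝ) ^ (n - d) := by
    rw [Real.sqrt_le_left (by positivity), ← pow_mul, mul_comm, ← Int.cast_abs, ← Nat.cast_natAbs]
    exact_mod_cast hT
  have h4 : ((n : ℝ) ^ n) ≤ ((n : ℝ) ^ n) ^ (n - d) :=
    le_self_pow₀ (one_le_pow₀ (by exact_mod_cast (by omega : 1 ≤ n))) (by omega)
  refine le_of_pow_le_pow_left₀ (n := n - d) (by omega) (by positivity) ?_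
  rw [mul_pow]
  refine h2.trans (hP.trans ?_)
  gcongr

variable {F K : Type} [Field F] [NumberField F] [Field K] [NumberField K] [Algebra F K]

theorem gen (n d m T : ℕ) (hn : finrank ℚ K = n) (hd : finrank ℚ F = d) (hm : finrank F K = m)
    (hdn : d < n) (hprim : ∀ E : IntermediateField F K, E = ⊥ ∨ E = ⊤)
    (hT : (discr K).natAbs ≤ T ^ (2 * (n - d))) :
    ∃ β : 𝓞 K, F⟮(β : K)⟯ = ⊤ ∧ (minpoly F (β : K)).natDegree = m ∧
      (minpoly F (β : K)).coeff (m - 1) = 0 ∧
      ∀ φ : K →+* ℂ, ‖φ β‖ ≤ (2 * n ^ (n + 1) * T : ℕ) := by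
  have hfin : FiniteDimensional F K := Module.Finite.of_restrictScalars_finite ℚ F K
  have hm0 : 0 < m := hm ▸ finrank_pos
  have hmn : m ≤ n := by
    have := finrank_mul_finrank ℚ F K
    rw [hd, hm, hn] at this
    have hd0 : 0 < d := hd ▸ finrank_pos
    nlinarith
  obtain ⟨α, hα, hR⟩ := short n d T hn
    (LinearMap.range (IsScalarTower.toAlgHom ℚ F K).toLinearMap)
    (by rw [LinearMap.finrank_range_of_inj (algebraMap F K).injective, hd]) hdn hT
  have hint : IsIntegral ℤ ((m : K) * α - algebraMap F K (Algebra.trace F K α)) :=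
    ((isIntegral_natCast m).mul (RingOfIntegers.isIntegral_coe α)).sub
      (Algebra.isIntegral_trace (RingOfIntegers.isIntegral_coe α)).algebraMap
  have hmK : (m : K) ≠ 0 := by exact_mod_cast hm0.ne'
  have htop : F⟮(m : K) * α - algebraMap F K (Algebra.trace F K α)⟯ = ⊤ := by
    refine (hprim _).resolve_left fun h => hα ?_
    rw [IntermediateField.adjoin_simple_eq_bot_iff, IntermediateField.mem_bot] at h
    obtain ⟨c, hc⟩ := h
    refine ⟨(c + Algebra.trace F K α) / m, ?_⟩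
    change algebraMap F K _ = _
    rw [map_div₀, map_add, hc, map_natCast]
    field_simp
    ring
  have hdeg : (minpoly F ((m : K) * α - algebraMap F K (Algebra.trace F K α))).natDegree = m := by
    rw [← IntermediateField.adjoin.finrank (IsIntegral.of_finite F _), htop,
      IntermediateField.finrank_top', hm]
  refine ⟨⟨_, hint⟩, htop, hdeg, ?_, fun φ => ?_⟩
  · have h1 := trace_eq_finrank_mul_minpoly_nextCoeff F
      ((m : K) * α - algebraMap F K (Algebra.trace F K α))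
    rw [map_sub, Algebra.trace_algebraMap, ← nsmul_eq_mul, map_nsmul, hm, sub_self,
      nextCoeff_of_natDegree_pos (by rw [nsmul_eq_mul, hdeg]; exact hm0), nsmul_eq_mul, hdeg,
      eq_comm, mul_eq_zero, neg_eq_zero] at h1
    exact h1.resolve_left (by exact_mod_cast finrank_pos.ne')
  · let _ : Algebra F ℂ := (φ.comp (algebraMap F K)).toAlgebra
    have h1 : φ (algebraMap F K (Algebra.trace F K α)) = ∑ σ : K →ₐ[F] ℂ, σ α :=
      trace_eq_sum_embeddings (K := F) (L := K) ℂ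
    have h2 : ‖φ (algebraMap F K (Algebra.trace F K α))‖ ≤ m * house (α : K) := by
      rw [h1]
      refine (norm_sum_le _ _).trans ((sum_le_card_nsmul _ _ _ fun σ _ =>
        norm_embedding_le_house (α : K) σ.toRingHom).trans ?_)
      rw [card_univ, AlgHom.card, hm, nsmul_eq_mul]
    have h3 := norm_embedding_le_house (α : K) φ
    have h4 : (m : ℝ) ≤ n := by exact_mod_cast hmn
    have h5 := house_nonneg (α : K)
    change ‖φ (_ - _)‖ ≤ _
    rw [map_sub, map_mul, map_natCast]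
    refine (norm_sub_le _ _).trans ?_
    rw [norm_mul, Complex.norm_natCast]
    push_cast
    calc _ ≤ m * house (α : K) + m * house (α : K) := by gcongr
      _ ≤ n * (n ^ n * T) + n * (n ^ n * T) := by gcongr
      _ = _ := by ring

lemma coeff_small (β : K) (hβ : IsIntegral ℤ β) (R : ℕ) (hR : ∀ φ : K →+* ℂ, ‖φ β‖ ≤ R) (j : ℕ) :
    IsIntegral ℤ ((minpoly F β).coeff j) ∧ ∀ ψ : F →+* ℂ, ‖ψ ((minpoly F β).coeff j)‖ ≤
      (2 ^ (minpoly F β).natDegree * R ^ ((minpoly F β).natDegree - j) : ℕ) := by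
  have hfin : FiniteDimensional F K := Module.Finite.of_restrictScalars_finite ℚ F K
  have hm := minpoly.monic (IsIntegral.of_finite F β)
  refine ⟨isIntegral_coeff_of_dvd _ _ (minpoly.monic hβ) hm
    (minpoly.dvd_map_of_isScalarTower ℤ F β) j, fun ψ => ?_⟩
  let _ : Algebra F ℂ := ψ.toAlgebra
  have := coeff_le_of_roots_le (f := ψ) (B := R) j hm (IsAlgClosed.splits _) fun z hz => by
    have h1 : z ∈ (minpoly F β).rootSet ℂ := by
      rw [mem_rootSet_of_ne hm.ne_zero, aeval_def, ← eval_map]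
      exact isRoot_of_mem_roots hz
    obtain ⟨σ, rfl⟩ := (Algebra.IsAlgebraic.range_eval_eq_rootSet_minpoly ℂ β).symm.subset h1
    exact hR σ.toRingHom
  rw [coeff_map] at this
  refine this.trans ?_
  push_cast
  rw [mul_comm]
  gcongr
  exact_mod_cast Nat.choose_le_two_pow _ _

omit [NumberField F] [NumberField K] in
lemma range_eq (β : K) (h : F⟮β⟯ = ⊤) (φ : K →+* ℂ) :
    Set.range φ = Subfield.closure (Set.range (φ.comp (algebraMap F K)) ∪ {φ β}) := by
  have h1 : Subfield.closure (Set.range (algebraMap F K) ∪ {β}) = ⊤ := by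
    rw [← IntermediateField.adjoin_toSubfield, h]
    rfl
  rw [← RingHom.coe_fieldRange, RingHom.fieldRange_eq_map, ← h1, RingHom.map_field_closure,
    Set.image_union, Set.image_singleton, ← Set.range_comp]
  rfl

/-- An algebraic integer all of whose conjugates have modulus at most `r`. -/
def Small (r : ℕ) (z : ℂ) : Prop :=
  IsIntegral ℤ z ∧ ∀ w : ℂ, aeval w (minpoly ℚ z) = 0 → ‖w‖ ≤ r

lemma small_iff (r : ℕ) (ψ : F →+* ℂ) (a : F) :
    Small r (ψ a) ↔ IsIntegral ℤ a ∧ ∀ φ : F →+* ℂ, ‖φ a‖ ≤ r := by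
  have h1 : minpoly ℚ (ψ a) = minpoly ℚ a := minpoly.algHom_eq ψ.toRatAlgHom ψ.injective a
  have h0 := minpoly.ne_zero (IsIntegral.of_finite ℚ a)
  have h2 := Embeddings.range_eval_eq_rootSet_minpoly F ℂ a
  refine and_congr (isIntegral_algHom_iff ψ.toIntAlgHom ψ.injective) ⟨fun h φ => h _ ?_, ?_⟩
  · rw [h1, ← mem_rootSet_of_ne h0, ← h2]
    exact ⟨φ, rfl⟩
  · intro h w hw
    rw [h1, ← mem_rootSet_of_ne h0, ← h2] at hw
    obtain ⟨φ, rfl⟩ := hw
    exact h φ

lemma card_small (r : ℕ) (ψ : F →+* ℂ) (s : Finset ℂ)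
    (hs : ∀ z ∈ s, z ∈ Set.range ψ ∧ Small r z) : s.card ≤ (2 * r + 1) ^ finrank ℚ F := by
  classical
  have h : ∀ z : s, ∃ x : 𝓞 F, ψ x = z ∧ ∀ φ : F →+* ℂ, ‖φ x‖ ≤ r := by
    rintro ⟨z, hz⟩
    obtain ⟨⟨a, rfl⟩, h⟩ := hs z hz
    rw [small_iff] at h
    exact ⟨⟨a, h.1⟩, rfl, h.2⟩
  choose x hx hr using h
  set I : Ideal (𝓞 F) := Ideal.span {((2 * r + 1 : ℕ) : 𝓞 F)}
  have hc : Nat.card (𝓞 F ⧸ I) = (2 * r + 1) ^ finrank ℚ F := by
    rw [← Submodule.cardQuot_apply, ← Ideal.absNorm_apply, Ideal.absNorm_span_natCast,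
      RingOfIntegers.rank]
  have : Finite (𝓞 F ⧸ I) := Nat.finite_of_card_ne_zero (by rw [hc]; positivity)
  rw [← hc, ← Fintype.card_coe, ← Nat.card_eq_fintype_card]
  refine Nat.card_le_card_of_injective (fun z => Ideal.Quotient.mk I (x z)) fun z w h => ?_
  obtain ⟨y, hy⟩ := Ideal.mem_span_singleton.1 (Ideal.Quotient.eq.1 h)
  by_cases hy0 : y = 0
  · rw [hy0, mul_zero, sub_eq_zero] at hy
    exact Subtype.ext (by rw [← hx, ← hx, hy])
  · obtain ⟨σ, hσ⟩ := exists_conjugate_one_le_norm hy0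
    have h1 := congrArg (fun t : 𝓞 F => ‖σ t‖) hy
    simp only [map_sub, map_mul, map_natCast, norm_mul, Complex.norm_natCast] at h1
    have h2 := norm_sub_le (σ (x z)) (σ (x w))
    have h3 := hr z σ
    have h4 := hr w σ
    push_cast at h1
    have : (0 : ℝ) ≤ r := by positivity
    nlinarith

end Pool.Agent.NF76
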