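import Mathlib

/-! The different at a prime `p`: Newton identities and the structure of `gcd(𝔡, p^j)`. -/

namespace Pool.Agent.NF76

open Finset NumberField Polynomial Module

lemma newton {A ι : Type} [CommRing A] [IsDomain A] [CharZero A] [Fintype ι] (s : ι → A)
    (p j : ℕ) (hp : p.Prime) (hn : Fintype.card ι < p ^ j)
    (h : ∀ l, 1 ≤ l → (p : A) ^ j ∣ ∑ i, s i ^ l) (i : ι) : (p : A) ∣ s i ^ Fintype.card ι := by
  classical
  have he : ∀ k, 1 ≤ k → k ≤ Fintype.card ι → (p : A) ∣ (univ.val.map s).esymm k := by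
    intro k hk1 hkn
    have h1 := congrArg (MvPolynomial.aeval s) (MvPolynomial.mul_esymm_eq_sum ι ℤ k)
    rw [map_mul, map_natCast, MvPolynomial.aeval_esymm_eq_multiset_esymm] at h1
    have h2 : (p : A) ^ j ∣ (k : A) * (univ.val.map s).esymm k := by
      rw [h1, map_mul, map_sum]
      refine Dvd.dvd.mul_left (Finset.dvd_sum fun a ha => ?_) _
      rw [map_mul]
      refine Dvd.dvd.mul_left ?_ _
      simp only [mem_filter, HasAntidiagonal.mem_antidiagonal] at ha
      have := h a.2 (by omega)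
      simpa [MvPolynomial.psum] using this
    obtain ⟨a, u, hu, rfl⟩ := Nat.exists_eq_pow_mul_and_not_dvd (by omega : k ≠ 0) p hp.ne_one
    have hu0 : 0 < u := Nat.pos_of_ne_zero (by rintro rfl; simp at hu)
    have haj : a < j := by
      by_contra hc
      have : p ^ j ≤ p ^ a := Nat.pow_le_pow_right hp.pos (by omega)
      have : p ^ a ≤ p ^ a * u := Nat.le_mul_of_pos_right _ hu0
      omega
    have hp0 : (p : A) ≠ 0 := by exact_mod_cast hp.ne_zero
    have h3 : (p : A) ∣ (u : A) * (univ.val.map s).esymm (p ^ a * u) := by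
      have h4 : (p : A) ^ a * p ∣ (p : A) ^ a * ((u : A) * (univ.val.map s).esymm (p ^ a * u)) := by
        rw [← pow_succ, ← mul_assoc]
        refine (pow_dvd_pow _ haj).trans ?_
        simpa using h2
      exact (mul_dvd_mul_iff_left (pow_ne_zero _ hp0)).1 h4
    have hco : IsCoprime (p : A) (u : A) :=
      Nat.Coprime.cast ((Nat.Prime.coprime_iff_not_dvd hp).2 hu)
    exact hco.dvd_of_dvd_mul_left h3
  have h1 := congrArg (eval (s i)) (Multiset.prod_X_sub_X_eq_sum_esymm (univ.val.map s))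
  have h0 : eval (s i) (((univ.val.map s).map fun t => X - C t).prod) = 0 := by
    rw [eval_multiset_prod]
    refine Multiset.prod_eq_zero ?_
    simp only [Multiset.map_map, Multiset.mem_map]
    exact ⟨i, by simp, by simp⟩
  rw [h0, eval_finsetSum, Finset.sum_range_succ'] at h1
  have hz : (univ.val.map s).esymm 0 = 1 := by simp [Multiset.esymm]
  simp only [Multiset.card_map, Finset.card_val, Finset.card_univ, pow_zero, hz,
    map_one, one_mul, Nat.sub_zero, eval_pow, eval_X] at h1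
  rw [eq_neg_of_add_eq_zero_right h1.symm, dvd_neg]
  refine Finset.dvd_sum fun k hk => ?_
  simp only [eval_mul, eval_C]
  exact ((he (k + 1) (by omega) (by simpa using hk)).mul_right _).mul_left _

variable {K : Type} [Field K] [NumberField K]

/-- If all traces of powers of `x` are divisible by `p ^ j > n` then `p ∣ x ^ n`. -/
lemma pow_mem (x : 𝓞 K) (p j : ℕ) (hp : p.Prime) (hn : finrank ℚ K < p ^ j)
    (h : ∀ l, 1 ≤ l → (p : ℤ) ^ j ∣ Algebra.intTrace ℤ (𝓞 K) (x ^ l)) :
    (p : 𝓞 K) ∣ x ^ finrank ℚ K := by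
  classical
  have hc : Fintype.card (K →ₐ[ℚ] ℂ) = finrank ℚ K := AlgHom.card ℚ K ℂ
  let s : (K →ₐ[ℚ] ℂ) → integralClosure ℤ ℂ := fun σ => ⟨σ (x : K),
    ((RingOfIntegers.isIntegral_coe x).map σ.toRingHom.toIntAlgHom)⟩
  obtain ⟨σ⟩ : Nonempty (K →ₐ[ℚ] ℂ) := ⟨IsAlgClosed.lift⟩
  have := newton s p j hp (by rwa [hc]) (fun l hl => ?_) σ
  · rw [hc] at this
    obtain ⟨y, hy⟩ := this
    have hy' : σ ((x : K) ^ finrank ℚ K / p) = (y : ℂ) := by
      have h1 := congrArg (fun z : integralClosure ℤ ℂ => (z : ℂ)) hy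
      simp only [s, SubmonoidClass.coe_pow, MulMemClass.coe_mul, SubringClass.coe_natCast] at h1
      have hp0 : (p : ℂ) ≠ 0 := by exact_mod_cast hp.ne_zero
      rw [map_div₀, map_pow, map_natCast, h1]
      field_simp
    have hint : IsIntegral ℤ ((x : K) ^ finrank ℚ K / p) := by
      rw [← isIntegral_algHom_iff σ.toRingHom.toIntAlgHom σ.toRingHom.injective]
      change IsIntegral ℤ (σ _)
      rw [hy']
      exact y.2
    refine ⟨⟨_, hint⟩, ?_⟩
    ext
    have hp0 : (p : K) ≠ 0 := by exact_mod_cast hp.ne_zero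
    simp only [map_pow, map_mul, map_natCast, RingOfIntegers.map_mk]
    field_simp
  · obtain ⟨c, hc⟩ := h l hl
    refine ⟨c, ?_⟩
    apply Subtype.ext
    have h1 := Algebra.algebraMap_intTrace (A := ℤ) (B := 𝓞 K) (K := ℚ) (L := K) (x ^ l)
    have h2 := trace_eq_sum_embeddings (K := ℚ) (L := K) ℂ (x := algebraMap (𝓞 K) K (x ^ l))
    rw [← h1, hc] at h2
    simp only [s, AddSubmonoidClass.coe_finsetSum, SubmonoidClass.coe_pow, MulMemClass.coe_mul,
      SubringClass.coe_natCast, SubringClass.coe_intCast]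
    simpa using h2.symm

/-- The structure of the different at `p`. -/
lemma local_split (p j : ℕ) (hp : p.Prime) (hn : finrank ℚ K < p ^ j) :
    ∃ (G H : Ideal (𝓞 K)) (u : ℕ), G * H = Ideal.span {(p : 𝓞 K) ^ j} ∧
      differentIdeal ℤ (𝓞 K) ≤ G ∧ (∀ x ∈ H, (p : 𝓞 K) ∣ x ^ finrank ℚ K) ∧
      (discr K).natAbs = G.absNorm * u ∧ ¬ p ∣ u := by
  set d := differentIdeal ℤ (𝓞 K) with hd
  set G := d ⊔ Ideal.span {(p : 𝓞 K) ^ j} with hG
  obtain ⟨H, hH⟩ : G ∣ Ideal.span {(p : 𝓞 K) ^ j} := Ideal.dvd_iff_le.2 le_sup_right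
  obtain ⟨d', hd'⟩ : G ∣ d := Ideal.dvd_iff_le.2 le_sup_left
  have hx : ∀ x ∈ H, (p : 𝓞 K) ∣ x ^ finrank ℚ K := by
    intro x hx
    refine pow_mem x p j hp hn fun l hl => ?_
    by_contra hc
    refine not_dvd_differentIdeal_of_intTrace_not_mem ℤ (p := Ideal.span {(p : ℤ) ^ j}) G H ?_
      (x ^ l) (Ideal.pow_mem_of_mem _ hx _ hl) (by rwa [Ideal.mem_span_singleton]) ⟨d', hd'⟩
    rw [← hH, Ideal.map_span]
    simp
  refine ⟨G, H, d'.absNorm, hH.symm, le_sup_left, hx, ?_, fun hdvd => ?_⟩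
  · rw [← absNorm_differentIdeal K (𝓞 K), ← hd, ← map_mul, ← hd']
  · obtain ⟨P, hP, hPp, hPd⟩ := Ideal.exists_isMaximal_dvd_of_dvd_absNorm' hp _ hdvd
    have hpP : (p : 𝓞 K) ∈ P := by
      have : (p : ℤ) ∈ P.under ℤ := by rw [hPp]; exact Ideal.mem_span_singleton_self _
      simpa [Ideal.under, Ideal.mem_comap] using this
    have hHP : H ≤ P := fun x hxH =>
      hP.isPrime.mem_of_pow_mem _ (Ideal.mem_of_dvd _ (hx x hxH) hpP)
    have h1 : G ≤ G * P := by
      refine sup_le ?_ ?_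
      · conv_lhs => rw [hd']
        exact Ideal.mul_mono_right (Ideal.dvd_iff_le.1 hPd)
      · conv_lhs => rw [hH]
        exact Ideal.mul_mono_right hHP
    have hG0 : G ≠ 0 := by
      intro h0
      rw [h0, zero_mul] at hd'
      exact differentIdeal_ne_bot hd'
    have h2 : G * P ∣ G * 1 := by rw [mul_one]; exact Ideal.dvd_iff_le.2 h1
    rw [mul_dvd_mul_iff_left hG0] at h2
    exact hP.ne_top (by simpa using Ideal.dvd_iff_le.1 h2)

/-- The exponent of any prime in the discriminant is at most `n ^ 2`. -/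
lemma fact_le (p : ℕ) (hp : p.Prime) :
    (discr K).natAbs.factorization p ≤ finrank ℚ K * finrank ℚ K := by
  obtain ⟨G, H, u, hGH, -, -, hD, hu⟩ := local_split (K := K) p (finrank ℚ K) hp
    (Nat.lt_pow_self hp.one_lt)
  have h1 := congrArg Ideal.absNorm hGH
  rw [map_mul, ← Nat.cast_pow, Ideal.absNorm_span_natCast, RingOfIntegers.rank, ← pow_mul] at h1
  obtain ⟨k, hk, hGk⟩ := (Nat.dvd_prime_pow hp).1 ⟨_, h1.symm⟩
  have hu0 : u ≠ 0 := by rintro rfl; simp at hu
  rw [hD, hGk, Nat.factorization_mul (pow_ne_zero _ hp.ne_zero) hu0]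
  simp [hp.factorization_pow, Nat.factorization_eq_zero_of_not_dvd hu, hk]

end Pool.Agent.NF76
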