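import Pool.Agent.Lib.NF76.Local1
import Pool.Agent.Lib.NF76.Count1

/-! Tame primes: the minimal polynomial of an integral generator has few roots modulo `p`. -/

namespace Pool.Agent.NF76

open Finset NumberField Polynomial Module

variable {K : Type} [Field K] [NumberField K]

lemma exists_poly (β : 𝓞 K) (H : Ideal (𝓞 K)) (p r : ℕ) (hp : p.Prime) (hH : H.absNorm = p ^ r) :
    ∃ g : ℤ[X], g.natDegree ≤ r ∧ (∃ i, ¬ (p : ℤ) ∣ g.coeff i) ∧ aeval β g ∈ H := by
  classical
  have hfin : Finite (𝓞 K ⧸ H) := by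
    apply Nat.finite_of_card_ne_zero
    rw [← Submodule.cardQuot_apply, ← Ideal.absNorm_apply, hH]
    exact pow_ne_zero _ hp.ne_zero
  have := Fintype.ofFinite (𝓞 K ⧸ H)
  let P : (Fin (r + 1) → Fin p) → ℤ[X] := fun c => ∑ i : Fin (r + 1), monomial i ((c i : ℕ) : ℤ)
  have hP : ∀ c (i : Fin (r + 1)), (P c).coeff i = ((c i : ℕ) : ℤ) := by
    intro c i
    simp only [P, finsetSum_coeff, coeff_monomial, Fin.val_inj]
    simp
  have hdeg : ∀ c, (P c).natDegree ≤ r := fun c =>
    natDegree_sum_le_of_forall_le _ _ fun i _ => (natDegree_monomial_le _).trans (by omega)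
  obtain ⟨c, c', hne, he⟩ := Fintype.exists_ne_map_eq_of_card_lt
    (fun c => Ideal.Quotient.mk H (aeval β (P c))) (by
      rw [← Nat.card_eq_fintype_card (α := 𝓞 K ⧸ H), ← Submodule.cardQuot_apply,
        ← Ideal.absNorm_apply, hH]
      simp only [Fintype.card_fun, Fintype.card_fin]
      exact Nat.pow_lt_pow_right hp.one_lt (by omega))
  refine ⟨P c - P c', (natDegree_sub_le _ _).trans (max_le (hdeg c) (hdeg c')), ?_, ?_⟩
  · obtain ⟨i, hi⟩ := Function.ne_iff.1 hne
    refine ⟨i, fun hd => hi (Fin.ext ?_)⟩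
    rw [coeff_sub, hP, hP] at hd
    have h1 := (c i).2
    have h2 := (c' i).2
    have := Int.eq_zero_of_abs_lt_dvd hd (by rw [abs_lt]; omega)
    omega
  · rw [map_sub]
    exact Ideal.Quotient.eq.1 he

lemma root_of_dvd (β : 𝓞 K) (g : ℤ[X]) (p N : ℕ) (h : (p : 𝓞 K) ∣ aeval β g ^ N)
    (F : Type) [Field F] [CharP F p] (z : F) (hz : aeval z (minpoly ℤ β) = 0) :
    aeval z g = 0 := by
  obtain ⟨y, hy⟩ := h
  have hyi : IsIntegral ℤ y := Algebra.IsIntegral.isIntegral y
  have hm := minpoly.monic hyi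
  have h1 : aeval (algebraMap ℤ (𝓞 K) p * y) (scaleRoots (minpoly ℤ y) p) = 0 :=
    scaleRoots_aeval_eq_zero (minpoly.aeval ℤ y)
  have h2 : aeval β ((scaleRoots (minpoly ℤ y) p).comp (g ^ N)) = 0 := by
    rw [aeval_comp, map_pow, hy, ← h1]
    simp
  obtain ⟨q, hq⟩ := minpoly.isIntegrallyClosed_dvd (Algebra.IsIntegral.isIntegral β) h2
  have h3 := congrArg (aeval z) hq
  rw [map_mul, hz, zero_mul, aeval_comp, map_pow, aeval_def (aeval z g ^ N), ← eval_map,
    map_scaleRoots _ _ _ (by rw [hm.leadingCoeff]; simp)] at h3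
  have h4 : algebraMap ℤ F p = 0 := by simp
  rw [h4, scaleRoots_zero, (hm.map _).leadingCoeff, one_smul, eval_pow, eval_X] at h3
  exact pow_eq_zero_iff (M₀ := F) (by
    rintro rfl
    simp at h3) |>.1 (eq_zero_of_pow_eq_zero h3)

theorem tame (β : 𝓞 K) (hβ : Algebra.adjoin ℚ {algebraMap (𝓞 K) K β} = ⊤) (p : ℕ) (hp : p.Prime)
    (hn : finrank ℚ K < p) :
    (discr K).natAbs.factorization p ≤ finrank ℚ K - 1 ∧
    Few (finrank ℚ K) ((discr K).natAbs.factorization p) p (minpoly ℤ β) ∧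
    ((discr K).natAbs.factorization p = 1 → Dbl p (minpoly ℤ β)) := by
  classical
  obtain ⟨G, H, u, hGH, hdG, hx, hD, hu⟩ := local_split (K := K) p 1 hp (by simpa using hn)
  rw [pow_one] at hGH
  have h1 := congrArg Ideal.absNorm hGH
  rw [map_mul, Ideal.absNorm_span_natCast, RingOfIntegers.rank] at h1
  obtain ⟨k, hk, hGk⟩ := (Nat.dvd_prime_pow hp).1 ⟨_, h1.symm⟩
  have hu0 : u ≠ 0 := by rintro rfl; simp at hu
  have hf : (discr K).natAbs.factorization p = k := by
    rw [hD, hGk, Nat.factorization_mul (pow_ne_zero _ hp.ne_zero) hu0]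
    simp [hp.factorization_pow, Nat.factorization_eq_zero_of_not_dvd hu]
  have hH : H.absNorm = p ^ (finrank ℚ K - k) := by
    rw [hGk, ← pow_mul_pow_sub p hk] at h1
    exact Nat.eq_of_mul_eq_mul_left (pow_pos hp.pos _) h1
  have hn0 : 0 < finrank ℚ K := finrank_pos
  rw [hf]
  refine ⟨?_, fun F _ _ => ?_, fun hk1 => ?_⟩
  · by_contra hc
    have : k = finrank ℚ K := by omega
    rw [this, Nat.sub_self, pow_zero, Ideal.absNorm_eq_one_iff] at hH
    have h2 := hx 1 (by simp [hH])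
    rw [one_pow] at h2
    have h3 := Ideal.absNorm_span_natCast (S := 𝓞 K) p
    rw [Ideal.span_singleton_eq_top.2 (isUnit_of_dvd_one h2), Ideal.absNorm_top,
      RingOfIntegers.rank] at h3
    exact (Nat.one_lt_pow hn0.ne' hp.one_lt).ne h3
  · obtain ⟨g, hg, ⟨i, hi⟩, hgH⟩ := exists_poly β H p _ hp hH
    have hg0 : g.map (algebraMap ℤ F) ≠ 0 := by
      intro h0
      apply hi
      have := congrArg (coeff · i) h0
      simp only [coeff_map, coeff_zero, eq_intCast] at this
      exact (CharP.intCast_eq_zero_iff F p _).1 this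
    refine ⟨(g.aroots F).toFinset, ?_, fun z hz => ?_⟩
    · have := (Multiset.toFinset_card_le (g.aroots F)).trans
        ((card_roots' _).trans (natDegree_map_le.trans hg))
      omega
    · rw [Multiset.mem_toFinset, mem_aroots']
      exact ⟨hg0, root_of_dvd β g p _ (hx _ hgH) F z hz⟩
  · rw [hk1, pow_one] at hGk
    have hG : G ≠ ⊤ := by
      rintro rfl
      rw [Ideal.absNorm_top] at hGk
      exact hp.one_lt.ne hGk
    have hpG : (p : 𝓞 K) ∈ G := Ideal.mul_le_left (I := G) (J := H) (by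
      rw [hGH]; exact Ideal.mem_span_singleton_self _)
    have hcard : Nat.card (𝓞 K ⧸ G) = p := by
      rw [← Submodule.cardQuot_apply, ← Ideal.absNorm_apply, hGk]
    have := Fact.mk hp
    have := Ideal.Quotient.nontrivial_iff.2 hG
    obtain ⟨r, hr⟩ := AddSubgroup.mem_zmultiples_iff.1
      (mem_zmultiples_of_prime_card hcard (g := 1) (g' := Ideal.Quotient.mk G β) one_ne_zero)
    have key : ∀ q : ℤ[X], aeval β q ∈ G → (p : ℤ) ∣ q.eval r := by
      intro q hq
      have h2 : ((q.eval r : ℤ) : 𝓞 K) ∈ G := by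
        rw [← Ideal.Quotient.eq_zero_iff_mem] at hq ⊢
        rw [← hq, map_intCast]
        have h3 := aeval_algHom_apply (Ideal.Quotient.mkₐ ℤ G) β q
        simp only [Ideal.Quotient.mkₐ_eq_mk] at h3
        rw [← h3, ← hr, zsmul_one]
        exact (aeval_algebraMap_apply_eq_algebraMap_eval (A := 𝓞 K ⧸ G) r q).symm
      by_contra hc
      obtain ⟨a, b, hab⟩ := ((Nat.prime_iff_prime_int.1 hp).coprime_iff_not_dvd).2 hc
      apply hG
      rw [Ideal.eq_top_iff_one]
      have h4 := congrArg (Int.cast : ℤ → 𝓞 K) hab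
      push_cast at h4
      rw [← h4]
      exact G.add_mem (G.mul_mem_left _ hpG) (G.mul_mem_left _ h2)
    exact ⟨r, key _ (by rw [minpoly.aeval]; exact G.zero_mem),
      key _ (hdG (aeval_derivative_mem_differentIdeal ℤ ℚ K β hβ))⟩

end Pool.Agent.NF76
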