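import Pool.Agent.Lib.NF76.Prim

/-! Fields with a proper subfield, and the induction on the degree. -/

namespace Pool.Agent.NF76

open Finset NumberField Polynomial Module
open scoped IntermediateField

lemma card_polys (S : Finset ℂ[X]) (m : ℕ) (B : ℕ → ℕ)
    (hS : ∀ g ∈ S, g.Monic ∧ g.natDegree = m ∧ g.coeff (m - 1) = 0)
    (hB : ∀ j < m - 1, (S.image fun g => g.coeff j).card ≤ B j) :
    S.card ≤ ∏ j ∈ range (m - 1), B j := by
  classical
  refine (card_le_card_of_injOn
    (t := Fintype.piFinset fun j : Fin (m - 1) => S.image fun g => g.coeff j)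
    (fun g j => g.coeff j) (fun g hg => ?_) fun g hg g' hg' h => ?_).trans ?_
  · exact mem_coe.2 (Fintype.mem_piFinset.2 fun j => mem_image_of_mem _ hg)
  · obtain ⟨h1, h2, h3⟩ := hS g hg
    obtain ⟨h1', h2', h3'⟩ := hS g' hg'
    ext j
    rcases lt_trichotomy j m with hj | rfl | hj
    · by_cases hj' : j < m - 1
      · exact congrFun h ⟨j, hj'⟩
      · rw [show j = m - 1 by omega, h3, h3']
    · rw [← h2, h1.coeff_natDegree, h2, ← h2', h1'.coeff_natDegree]
    · rw [coeff_eq_zero_of_natDegree_lt (by omega), coeff_eq_zero_of_natDegree_lt (by omega)]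
  · rw [Fintype.card_piFinset, ← Fin.prod_univ_eq_prod_range]
    exact prod_le_prod' fun j _ => hB j j.2

theorem rel (d m : ℕ) (hd : 1 ≤ d) (hm : 2 ≤ m) (θ : ℝ) (hθ : 0 ≤ θ) (h : Bnd d 0 θ) :
    Bnd (d * m) d (((m : ℝ) + 2) / 4 + θ / m) := by
  classical
  intro ε hε
  obtain ⟨C₀, hC₀, h₀⟩ := h (ε / 2) (by positivity)
  obtain ⟨C₁, hC₁, h₁⟩ := div_bound (ε := ε / 2) (by positivity)
  set n := d * m with hn
  have hdn : d < n := by rw [hn]; nlinarith
  set A := 2 ^ m * (2 * n ^ (n + 1)) ^ m with hA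
  set N := ∑ j ∈ range (m - 1), (m - j) with hN
  refine ⟨m * ((3 * A) ^ d) ^ (m - 1) * 2 ^ (N * d) * (C₁ * C₀), by positivity,
    fun D hD ι _ K _ _ φ hK hdisc hsub hinj => ?_⟩
  obtain ⟨T, hT1, hT, hTN⟩ := exists_T D (2 * (n - d)) hD (by omega)
  choose F hF hco using fun i => hsub i (by omega)
  have hFK : ∀ i, finrank (F i) (K i) = m := fun i => by
    have := finrank_mul_finrank ℚ (F i) (K i)
    rw [hF, hK, hn] at this
    exact Nat.eq_of_mul_eq_mul_left hd this
  have hgen := fun i => gen (F := F i) (K := K i) n d m T (hK i) (hF i) (hFK i) hdn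
    (fun E => by
      have hle : F i ≤ E.restrictScalars ℚ := fun x hx => E.algebraMap_mem ⟨x, hx⟩
      rcases (hco i).le_iff.1 hle with h | h
      · exact Or.inr (IntermediateField.restrictScalars_eq_top_iff.1 h)
      · refine Or.inl (IntermediateField.restrictScalars_injective ℚ ?_)
        exact h.trans (IntermediateField.restrictScalars_bot_eq_self (F i)).symm)
    (by rw [hdisc]; exact hT)
  choose β hβ hdeg hc hR using hgen
  let ψ : ∀ i, F i →+* ℂ := fun i => (φ i).comp (algebraMap (F i) (K i))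
  let ρ : ι → Set ℂ := fun i => Set.range (ψ i)
  let g : ι → ℂ[X] := fun i => (minpoly (F i) (β i : K i)).map (ψ i)
  have hmon : ∀ i, (minpoly (F i) (β i : K i)).Monic := fun i =>
    minpoly.monic (IsIntegral.of_finite _ _)
  have hA1 : 1 ≤ A := Nat.succ_le_of_lt (by have : 0 < n := by omega
                                            positivity)
  have h1 : Fintype.card ι ≤ m * ((3 * A) ^ d) ^ (m - 1) * T ^ (N * d) * (univ.image ρ).card := by
    refine card_le_mul_card_image univ _ fun b hb => ?_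
    obtain ⟨i₀, -, rfl⟩ := mem_image.1 hb
    refine (card_le_roots _ (fun i => φ i (β i)) g id m (fun i hi j hj h => hinj ?_)
      fun i _ => ⟨((hmon i).map _).ne_zero, natDegree_map_le.trans (hdeg i).le, ?_⟩).trans ?_
    · simp only [coe_filter, Set.mem_ofPred_eq] at hi hj h ⊢
      rw [range_eq _ (hβ i), range_eq _ (hβ j), h]
      exact congrArg (fun t => ((Subfield.closure (t ∪ _) : Subfield ℂ) : Set ℂ))
        (hi.2.trans hj.2.symm)
    · rw [id, IsRoot, eval_map, ← hom_eval₂, ← aeval_def, minpoly.aeval, map_zero]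
    · rw [mul_assoc]
      gcongr
      refine (card_polys _ m (fun j => (3 * A) ^ d * (T ^ (m - j)) ^ d) (fun g' hg' => ?_)
        fun j hj => ?_).trans_eq ?_
      · obtain ⟨i, -, rfl⟩ := mem_image.1 hg'
        exact ⟨(hmon i).map _, by rw [(hmon i).natDegree_map, hdeg],
          by rw [coeff_map, hc, map_zero]⟩
      · refine (card_small (A * T ^ (m - j)) (ψ i₀) _ fun z hz => ?_).trans ?_
        · obtain ⟨g', hg', rfl⟩ := mem_image.1 hz
          obtain ⟨i, hi, rfl⟩ := mem_image.1 hg'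
          rw [coeff_map]
          refine ⟨(mem_filter.1 hi).2.subset ⟨_, rfl⟩, (small_iff _ _ _).2 ?_⟩
          obtain ⟨h1, h2⟩ :=
            coeff_small (F := F i) (β i : K i) (RingOfIntegers.isIntegral_coe _) _ (hR i) j
          refine ⟨h1, fun σ => (h2 σ).trans ?_⟩
          rw [hdeg, Nat.cast_le, mul_pow, hA, ← mul_assoc]
          gcongr
          · have : 0 < n := by omega
            exact Nat.succ_le_of_lt (by positivity)
          · omega
        · rw [hF, ← mul_pow]
          refine Nat.pow_le_pow_left ?_ _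
          have : 1 ≤ A * T ^ (m - j) := Nat.succ_le_of_lt (by positivity)
          rw [mul_assoc 3]
          generalize A * T ^ (m - j) = y at this ⊢
          omega
      · rw [prod_mul_distrib, prod_const, card_range, prod_pow, prod_pow_eq_pow_sum, ← hN, ← pow_mul T]
  have hD0 : (0 : ℝ) < D := by exact_mod_cast hD
  have hD1 : (1 : ℝ) ≤ D := by exact_mod_cast hD
  have hm' : (2 : ℝ) ≤ m := by exact_mod_cast hm
  have h2 : ((univ.image ρ).card : ℝ) ≤
      C₁ * (D : ℝ) ^ (ε / 2) * (C₀ * (D : ℝ) ^ (θ / m + ε / 2)) := by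
    obtain ⟨t, -, ht, hte⟩ := exists_subset_injOn_image_eq_of_surjOn (f := ρ) Set.univ
      (univ.image ρ) (by intro b hb; simpa using hb)
    have hdv : ∀ i, (discr (F i)).natAbs ^ m ∣ D := fun i => by
      rw [← hdisc i, natAbs_discr_eq_absNorm_differentIdeal_mul_natAbs_discr_pow (F i) (𝓞 (F i))
        (K i) (𝓞 (K i)), hFK]
      exact dvd_mul_left _ _
    rw [← hte, card_image_of_injOn ht, card_eq_sum_card_fiberwise (t := D.divisors)
      (f := fun i => (discr (F i)).natAbs) fun i _ => mem_coe.2 (Nat.mem_divisors.2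
        ⟨(dvd_pow_self _ (by omega)).trans (hdv i), by omega⟩), Nat.cast_sum]
    refine (sum_le_card_nsmul _ _ (C₀ * (D : ℝ) ^ (θ / m + ε / 2)) fun D' hD' => ?_).trans ?_
    · rcases (t.filter fun i => (discr (F i)).natAbs = D').eq_empty_or_nonempty with he | ⟨i₀, hi₀⟩
      · rw [he, card_empty, Nat.cast_zero]
        positivity
      have hD'1 : 1 ≤ D' := Nat.pos_of_mem_divisors hD'
      have := h₀ D' hD'1 (t.filter fun i => (discr (F i)).natAbs = D') (fun i => F i)
        (fun i => ψ i) (fun i => hF i) (fun i => (mem_filter.1 i.2).2) (fun i h => (h rfl).elim)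
        fun i j h => Subtype.ext (ht (mem_filter.1 i.2).1 (mem_filter.1 j.2).1 h)
      rw [Fintype.card_coe] at this
      refine this.trans ?_
      have h3 : ((D' : ℝ)) ^ m ≤ D := by
        have := Nat.le_of_dvd hD (hdv i₀)
        rw [(mem_filter.1 hi₀).2] at this
        exact_mod_cast this
      have h4 : (D' : ℝ) ≤ D := by exact_mod_cast Nat.divisor_le hD'
      have h5 : (0 : ℝ) < D' := by exact_mod_cast hD'1
      rw [Real.rpow_add h5, Real.rpow_add hD0]
      gcongr
      calc (D' : ℝ) ^ θ = ((D' : ℝ) ^ m) ^ (θ / m) := by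
            rw [← Real.rpow_natCast, ← Real.rpow_mul h5.le]
            congr 1
            field_simp
        _ ≤ _ := by gcongr
    · rw [nsmul_eq_mul]
      gcongr
      exact h₁ D D le_rfl
  have h7 := hTN (N * d)
  have h8 : ((N * d : ℕ) : ℝ) / (2 * (n - d) : ℕ) = ((m : ℝ) + 2) / 4 := by
    rw [Nat.cast_mul, hN, sum_eq m (by omega), Nat.cast_mul, Nat.cast_sub hdn.le, hn]
    push_cast
    have : (m - 1 : ℝ) ≠ 0 := by linarith
    have : (d : ℝ) ≠ 0 := by positivity
    rw [show (d * m - d : ℝ) = d * (m - 1) by ring]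
    field_simp
    ring
  rw [h8] at h7
  have h9 : ((Fintype.card ι : ℕ) : ℝ) ≤ _ := Nat.cast_le.2 h1
  push_cast at h9
  refine h9.trans ?_
  calc _ ≤ (m : ℝ) * ((3 * A) ^ d) ^ (m - 1) * (2 ^ (N * d) * (D : ℝ) ^ (((m : ℝ) + 2) / 4)) *
        (C₁ * (D : ℝ) ^ (ε / 2) * (C₀ * (D : ℝ) ^ (θ / m + ε / 2))) := by gcongr
    _ = _ := by
      rw [show ((m : ℝ) + 2) / 4 + θ / m + ε = ((m : ℝ) + 2) / 4 + (ε / 2 + (θ / m + ε / 2)) by ring,
        Real.rpow_add hD0 (((m : ℝ) + 2) / 4), Real.rpow_add hD0 (ε / 2)]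
      ring

lemma Bnd.mono {n d : ℕ} {θ θ' : ℝ} (h : Bnd n d θ) (hθ : θ ≤ θ') : Bnd n d θ' := by
  intro ε hε
  obtain ⟨C, hC, h⟩ := h ε hε
  refine ⟨C, hC, fun D hD ι _ K _ _ φ h1 h2 h3 h4 => (h D hD ι K φ h1 h2 h3 h4).trans ?_⟩
  gcongr
  exact_mod_cast hD

lemma exists_sub (K : Type) [Field K] [NumberField K] (hn : 2 ≤ finrank ℚ K) :
    ∃ d, d ∈ (finrank ℚ K).properDivisors ∧ Sub K d := by
  classical
  have hb : (⊥ : IntermediateField ℚ K) ≠ ⊤ := by
    intro h
    have := IntermediateField.finrank_top' (F := ℚ) (E := K)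
    rw [← h, IntermediateField.finrank_bot] at this
    omega
  have hlt : ∀ F : IntermediateField ℚ K, F ≠ ⊤ → finrank ℚ F < finrank ℚ K := fun F hF => by
    by_contra hc
    exact hF (IntermediateField.eq_of_le_of_finrank_le le_top
      (by rw [IntermediateField.finrank_top']; omega))
  have := Field.finite_intermediateField_of_exists_primitive_element ℚ K
    (Field.exists_primitive_element ℚ K)
  obtain ⟨F, hF, hmax⟩ := Set.exists_max_image {F : IntermediateField ℚ K | F ≠ ⊤}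
    (fun F => finrank ℚ F) (Set.toFinite _) ⟨⊥, hb⟩
  refine ⟨finrank ℚ F, Nat.mem_properDivisors.2 ⟨⟨_, (finrank_mul_finrank ℚ F K).symm⟩, hlt F hF⟩,
    fun _ => ⟨F, rfl, hF, fun E hE => ?_⟩⟩
  by_contra hc
  exact hE.ne (IntermediateField.eq_of_le_of_finrank_le hE.le (hmax E hc))

theorem union (n : ℕ) (hn : 2 ≤ n) (θ : ℝ) (h : ∀ d ∈ n.properDivisors, Bnd n d θ) :
    Bnd n 0 θ := by
  classical
  intro ε hε
  choose! C hC h using fun d hd => h d hd ε hε
  refine ⟨∑ d ∈ n.properDivisors, C d, sum_nonneg hC, fun D hD ι _ K _ _ φ h1 h2 _ h4 => ?_⟩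
  choose d hd hs using fun i => exists_sub (K i) (by rw [h1]; exact hn)
  simp only [h1] at hd
  rw [← card_univ, card_eq_sum_card_fiberwise (f := d) (t := n.properDivisors) fun i _ => hd i,
    Nat.cast_sum, sum_mul]
  refine sum_le_sum fun e he => ?_
  have := h e he D hD (univ.filter fun i => d i = e) (fun i => K i) (fun i => φ i)
    (fun i => h1 i) (fun i => h2 i) (fun i => by have := hs i; rwa [(mem_filter.1 i.2).2] at this)
    fun i j h => Subtype.ext (h4 h)
  rwa [Fintype.card_coe] at this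

/-- The exponent. -/
noncomputable def ex (n : ℕ) : ℝ :=
  if n = 4 then 1 else ((n : ℝ) - 2) / 4 + (min (n - 2) 10 : ℕ) / (2 * n - 2)

lemma ex_bounds (n : ℕ) (hn : 2 ≤ n) : ((n : ℝ) - 2) / 4 ≤ ex n ∧ ex n ≤ n / 4 := by
  have hn' : (2 : ℝ) ≤ n := by exact_mod_cast hn
  have h0 : (0 : ℝ) < 2 * n - 2 := by linarith
  unfold ex
  split_ifs with h
  · subst h
    norm_num
  · have h1 : ((min (n - 2) 10 : ℕ) : ℝ) ≤ n - 2 := by
      have : ((min (n - 2) 10 : ℕ) : ℝ) ≤ (n - 2 : ℕ) := by exact_mod_cast min_le_left _ _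
      rwa [Nat.cast_sub hn] at this
    have h2 : ((min (n - 2) 10 : ℕ) : ℝ) / (2 * n - 2) ≤ 1 / 2 := by
      rw [div_le_iff₀ h0]
      linarith
    have h3 : 0 ≤ ((min (n - 2) 10 : ℕ) : ℝ) / (2 * n - 2) := by positivity
    constructor <;> linarith

lemma ex_step (d m : ℕ) (hd : 2 ≤ d) (hm : 2 ≤ m) : ((m : ℝ) + 2) / 4 + ex d / m ≤ ex (d * m) := by
  have hd' : (2 : ℝ) ≤ d := by exact_mod_cast hd
  have hm' : (2 : ℝ) ≤ m := by exact_mod_cast hm
  have h1 := (ex_bounds (d * m) (by nlinarith)).1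
  have h2 := (ex_bounds d hd).2
  push_cast at h1
  by_cases hd2 : d = 2
  · subst hd2
    by_cases hm4 : 4 ≤ m
    · have : (4 : ℝ) ≤ m := by exact_mod_cast hm4
      have h3 : ex 2 = 0 := by norm_num [ex]
      rw [h3, zero_div]
      push_cast at h1
      linarith
    · have : m ≤ 3 := by omega
      interval_cases m <;> norm_num [ex]
  · by_cases h32 : d = 3 ∧ m = 2
    · obtain ⟨rfl, rfl⟩ := h32
      norm_num [ex]
    · have h3 : (3 : ℝ) ≤ d := by exact_mod_cast (by omega : 3 ≤ d)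
      by_cases hm2 : m = 2
      · subst hm2
        have h4 : (4 : ℝ) ≤ d := by exact_mod_cast (by omega : 4 ≤ d)
        push_cast at h1 ⊢
        linarith
      · have h4 : (3 : ℝ) ≤ m := by exact_mod_cast (by omega : 3 ≤ m)
        have h5 : ex d / m ≤ d / 12 := by
          rw [div_le_iff₀ (by linarith)]
          nlinarith
        nlinarith

theorem bnd (n : ℕ) (hn : 2 ≤ n) : Bnd n 0 (ex n) := by
  induction n using Nat.strong_induction_on with
  | _ n ih =>
  refine union n hn _ fun d hd => ?_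
  obtain ⟨⟨m, rfl⟩, hlt⟩ := Nat.mem_properDivisors.1 hd
  have hm : 2 ≤ m := by
    by_contra hc
    have : m ≤ 1 := by omega
    nlinarith
  have hd0 : d ≠ 0 := by rintro rfl; simp at hlt
  by_cases hd1 : d = 1
  · subst hd1
    refine (prim _ hn).mono ?_
    unfold ex
    split_ifs with h
    · rw [h]
      norm_num
    · rfl
  · have hd2 : 2 ≤ d := by omega
    have hd' : (2 : ℝ) ≤ d := by exact_mod_cast hd2
    refine (rel d m (by omega) hm _ ?_ (ih d hlt hd2)).mono (ex_step d m hd2 hm)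
    have := (ex_bounds d hd2).1
    linarith

theorem main (n : ℕ) (hn : 5 ≤ n) (ε : ℝ) (hε : 0 < ε) : ∃ C : ℝ, ∀ D : ℕ, 1 ≤ D →
    ∀ m : ℕ, ∀ (K : Fin m → Type) [∀ i, Field (K i)] [∀ i, NumberField (K i)],
      (∀ i, Module.finrank ℚ (K i) = n) →
      (∀ i, (NumberField.discr (K i)).natAbs = D) →
      (∀ i j, i ≠ j → IsEmpty (K i ≃+* K j)) →
      (m : ℝ) ≤ C * (D : ℝ) ^ (((n : ℝ) - 2) / 4 + min ((n : ℝ) - 2) 10 / (2 * n - 2) + ε) := by
  obtain ⟨C, -, h⟩ := bnd n (by omega) ε hε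
  refine ⟨C, fun D hD m K _ _ h1 h2 h3 => ?_⟩
  let φ : ∀ i, K i →+* ℂ := fun i => (IsAlgClosed.lift : K i →ₐ[ℚ] ℂ).toRingHom
  have := h D hD (Fin m) K φ h1 h2 (fun i h => (h rfl).elim) fun i j hij => by
    by_contra hne
    exact (h3 i j hne).false ((φ i).rangeRestrictFieldEquiv.trans
      ((RingEquiv.subfieldCongr (SetLike.ext' hij)).trans (φ j).rangeRestrictFieldEquiv.symm))
  rw [Fintype.card_fin, ex, if_neg (by omega), Nat.cast_min, Nat.cast_sub (by omega)] at this
  exact this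

end Pool.Agent.NF76
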