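import Pool.Agent.Lib.NF76.Gen
import Pool.Agent.Lib.NF76.Local2
import Pool.Agent.Lib.NF76.Count2

/-! Fields without proper subfields. -/

namespace Pool.Agent.NF76

open Finset NumberField Polynomial Module
open scoped IntermediateField

/-- `K` has a maximal proper subfield of degree `d` (no condition if `d = 0`). -/
def Sub (K : Type) [Field K] [NumberField K] (d : ℕ) : Prop :=
  d ≠ 0 → ∃ F : IntermediateField ℚ K, finrank ℚ F = d ∧ IsCoatom F

def Bnd (n d : ℕ) (θ : ℝ) : Prop :=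
  ∀ ε : ℝ, 0 < ε → ∃ C : ℝ, 0 ≤ C ∧ ∀ D : ℕ, 1 ≤ D → ∀ (ι : Type) [Fintype ι] (K : ι → Type)
    [∀ i, Field (K i)] [∀ i, NumberField (K i)] (φ : ∀ i, K i →+* ℂ),
    (∀ i, finrank ℚ (K i) = n) → (∀ i, (discr (K i)).natAbs = D) → (∀ i, Sub (K i) d) →
    (Function.Injective fun i => Set.range (φ i)) → (Fintype.card ι : ℝ) ≤ C * (D : ℝ) ^ (θ + ε)

lemma card_le_roots {ι γ : Type} [DecidableEq γ] (s : Finset ι) (z : ι → ℂ) (g : ι → γ)
    (G : γ → ℂ[X]) (m : ℕ) (hz : Set.InjOn z s)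
    (h : ∀ i ∈ s, G (g i) ≠ 0 ∧ (G (g i)).natDegree ≤ m ∧ (G (g i)).IsRoot (z i)) :
    s.card ≤ m * (s.image g).card := by
  classical
  refine card_le_mul_card_image s m fun b hb => ?_
  obtain ⟨i, hi, rfl⟩ := mem_image.1 hb
  refine (card_le_card_of_injOn (t := (G (g i)).roots.toFinset) z (fun j hj => ?_)
    (hz.mono fun j hj => ?_)).trans
    ((Multiset.toFinset_card_le _).trans ((card_roots' _).trans (h i hi).2.1))
  · simp only [coe_filter, Set.mem_ofPred_eq] at hj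
    rw [mem_coe, Multiset.mem_toFinset, ← hj.2, mem_roots (h j hj.1).1]
    exact (h j hj.1).2.2
  · simp only [coe_filter, Set.mem_ofPred_eq] at hj
    exact hj.1

lemma exists_T (D e : ℕ) (hD : 1 ≤ D) (he : 1 ≤ e) : ∃ T : ℕ, 1 ≤ T ∧ D ≤ T ^ e ∧
    ∀ N : ℕ, (T : ℝ) ^ N ≤ 2 ^ N * (D : ℝ) ^ ((N : ℝ) / e) := by
  have hD' : (1 : ℝ) ≤ D := by exact_mod_cast hD
  have h1 : (1 : ℝ) ≤ (D : ℝ) ^ ((e : ℝ)⁻¹) := Real.one_le_rpow hD' (by positivity)
  refine ⟨⌈(D : ℝ) ^ ((e : ℝ)⁻¹)⌉₊, Nat.ceil_pos.2 (by linarith), ?_, fun N => ?_⟩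
  · have : (D : ℝ) ≤ (⌈(D : ℝ) ^ ((e : ℝ)⁻¹)⌉₊ : ℝ) ^ e := by
      conv_lhs => rw [← Real.rpow_inv_natCast_pow (by positivity : (0 : ℝ) ≤ D) (by omega : e ≠ 0)]
      gcongr
      exact Nat.le_ceil _
    exact_mod_cast this
  · rw [div_eq_inv_mul, Real.rpow_mul (by positivity), Real.rpow_natCast, ← mul_pow]
    gcongr
    have := Nat.ceil_lt_add_one (by linarith : 0 ≤ (D : ℝ) ^ ((e : ℝ)⁻¹))
    linarith

lemma sum_eq (m : ℕ) (hm : 1 ≤ m) :
    ((∑ j ∈ range (m - 1), (m - j) : ℕ) : ℝ) = (m + 2) * (m - 1) / 2 := by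
  induction m, hm using Nat.le_induction with
  | base => simp
  | succ k hk ih =>
    obtain ⟨l, rfl⟩ := Nat.exists_eq_add_of_le' hk
    simp only [Nat.add_sub_cancel] at ih ⊢
    rw [sum_range_succ']
    simp only [Nat.add_sub_add_right, Nat.sub_zero]
    rw [Nat.cast_add, ih]
    push_cast
    ring

lemma good_part (n D : ℕ) (hn : 1 ≤ n) (hD : 1 ≤ D) (h : ∀ p, p.Prime → D.factorization p ≤ n * n) :
    D ≤ (n ^ (n * n)) ^ (n + 1) *
      ∏ p ∈ D.primeFactors.filter (n < ·), p ^ D.factorization p ∧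
    ∏ p ∈ D.primeFactors.filter (n < ·), p ^ D.factorization p ≤ D := by
  have h1 := prod_filter_mul_prod_filter_not D.primeFactors (n < ·)
    fun p => p ^ D.factorization p
  rw [← Nat.prod_factorization_eq_prod_primeFactors,
    Nat.prod_factorization_pow_eq_self (by omega)] at h1
  constructor
  · conv_lhs => rw [← h1, mul_comm]
    gcongr
    refine (prod_le_pow_card _ _ (n ^ (n * n)) fun p hp => ?_).trans
      (Nat.pow_le_pow_right (by positivity) ?_)
    · simp only [mem_filter, not_lt] at hp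
      exact (Nat.pow_le_pow_left hp.2 _).trans
        (Nat.pow_le_pow_right hn (h p (Nat.prime_of_mem_primeFactors hp.1)))
    · refine (card_le_card (t := range (n + 1)) fun p hp => ?_).trans_eq (card_range _)
      simp only [mem_filter, not_lt] at hp
      exact mem_range.2 (by omega)
  · exact Nat.le_of_dvd hD ⟨_, h1.symm⟩

theorem prim (n : ℕ) (hn : 2 ≤ n) :
    Bnd n 1 (((n : ℝ) - 2) / 4 + (min (n - 2) 10 : ℕ) / (2 * n - 2)) := by
  classical
  intro ε hε
  obtain ⟨E, hE⟩ := poly_count n hn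
  obtain ⟨C₁, hC₁, h₁⟩ := div_bound (ε := ε / 3) (by positivity)
  obtain ⟨C₂, hC₂, h₂⟩ := omega_bound (E + 1) (ε := ε / 3) (by positivity)
  set A := 2 ^ n * (2 * n ^ (n + 1)) ^ n with hA
  set N := ∑ j ∈ range (n - 1), (n - j) with hN
  set μ := min (n - 2) 10
  set c := (n ^ (n * n)) ^ (n + 1)
  refine ⟨n * c * (40 * 72 ^ 6 * 4 ^ n * C₁ ^ 2 * A ^ (n - 1) * 2 ^ (μ + N)) * C₂, by positivity,
    fun D hD ι _ K _ _ φ hK hdisc hsub hinj => ?_⟩
  rcases isEmpty_or_nonempty ι with hι | ⟨⟨i₀⟩⟩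
  · simp only [Fintype.card_eq_zero, Nat.cast_zero]
    positivity
  obtain ⟨T, hT1, hT, hTN⟩ := exists_T D (2 * n - 2) hD (by omega)
  have hgen := fun i => gen (F := ℚ) (K := K i) n 1 n T (hK i) (finrank_self ℚ) (hK i) (by omega)
    (fun E => by
      obtain ⟨F, hF, hc⟩ := hsub i one_ne_zero
      rw [IntermediateField.finrank_eq_one_iff] at hF
      subst hF
      exact (hc.le_iff.1 bot_le).symm)
    (by rw [hdisc, show 2 * (n - 1) = 2 * n - 2 by omega]; exact hT)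
  choose β hβ hdeg hco hR using hgen
  have hβ' : ∀ i, Algebra.adjoin ℚ {algebraMap (𝓞 (K i)) (K i) (β i)} = ⊤ := fun i => by
    rw [← IntermediateField.adjoin_simple_toSubalgebra_of_isAlgebraic
      (Algebra.IsAlgebraic.isAlgebraic _)]
    exact congrArg IntermediateField.toSubalgebra (hβ i)
  let f : ι → ℤ[X] := fun i => minpoly ℤ (β i)
  have hf : ∀ i, minpoly ℚ (β i : K i) = (f i).map (algebraMap ℤ ℚ) := fun i =>
    minpoly.isIntegrallyClosed_eq_field_fractions ℚ (K i) (Algebra.IsIntegral.isIntegral _)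
  have hm : ∀ i, (f i).Monic := fun i => minpoly.monic (Algebra.IsIntegral.isIntegral _)
  have hfd : ∀ i, (f i).natDegree = n := fun i => by
    rw [← hdeg i, hf, (hm i).natDegree_map]
  have h1 : Fintype.card ι ≤ n * (univ.image f).card := by
    refine card_le_roots univ (fun i => φ i (β i)) f (map (algebraMap ℤ ℂ)) n
      (fun i _ j _ h => hinj ?_) fun i _ => ⟨((hm i).map _).ne_zero,
        natDegree_map_le.trans (hfd i).le, ?_⟩
    · simp only at h ⊢
      rw [range_eq _ (hβ i), range_eq _ (hβ j), h,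
        Subsingleton.elim ((φ i).comp _) ((φ j).comp _)]
    · rw [IsRoot, eval_map, ← aeval_def]
      have := aeval_algHom_apply ((φ i).comp (algebraMap (𝓞 (K i)) (K i))).toIntAlgHom (β i) (f i)
      rw [minpoly.aeval, map_zero] at this
      exact this
  obtain ⟨hg1, hg2⟩ := good_part n D (by omega) hD fun p hp => by
    have := fact_le (K := K i₀) p hp
    rwa [hdisc, hK] at this
  set P := D.primeFactors.filter (n < ·) with hP
  have hPp : ∀ p ∈ P, p.Prime ∧ n < p := fun p hp =>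
    ⟨Nat.prime_of_mem_primeFactors (mem_filter.1 hp).1, (mem_filter.1 hp).2⟩
  have ht := fun i p (hp : p ∈ P) => tame (β i) (hβ' i) p (hPp p hp).1 (by
    rw [hK]; exact (hPp p hp).2)
  simp only [hK, hdisc] at ht
  have h2 := hE A T ⌊C₁ * (D : ℝ) ^ (ε / 3)⌋₊ P D.factorization (Nat.succ_le_of_lt (by positivity))
    hT1 hPp (fun p hp => ⟨(hPp p hp).1.factorization_pos_of_dvd (by omega)
      (Nat.dvd_of_mem_primeFactors (mem_filter.1 hp).1), (ht i₀ p hp).1⟩) (hg2.trans hT)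
    (fun M hM => Nat.le_floor (h₁ M D (hM.trans hg2))) (univ.image f) (fun g hg => by
      obtain ⟨i, -, rfl⟩ := mem_image.1 hg
      refine ⟨hm i, hfd i, ?_, fun j hj => ?_, fun p hp => (ht i p hp).2⟩
      · have := hco i
        rw [hf, coeff_map] at this
        simpa using this
      · have := (coeff_small (F := ℚ) (β i : K i) (RingOfIntegers.isIntegral_coe _) _ (hR i) j).2
          (algebraMap ℚ ℂ)
        rw [hdeg, hf, coeff_map] at this
        simp only [eq_intCast, map_intCast, Complex.norm_intCast] at this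
        have h3 : 2 ^ n * (2 * n ^ (n + 1) * T) ^ (n - j) ≤ A * T ^ (n - j) := by
          rw [mul_pow, hA, ← mul_assoc]
          gcongr
          · exact Nat.succ_le_of_lt (by positivity)
          · omega
        have h4 : ((|(f i).coeff j| : ℤ) : ℝ) ≤ ((A * T ^ (n - j) : ℕ) : ℝ) := by
          rw [Int.cast_abs]
          exact this.trans (by exact_mod_cast h3)
        exact_mod_cast h4)
  rw [prod_mul_distrib, prod_const, card_range, prod_pow_eq_pow_sum, ← hN] at h2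
  have h3 : E ^ P.card ≤ (E + 1) ^ D.primeFactors.card :=
    (Nat.pow_le_pow_left (by omega) _).trans
      (Nat.pow_le_pow_right (by omega) (card_filter_le _ _))
  have h4 : Fintype.card ι * D ≤ n * c * (40 * 72 ^ 6 * 4 ^ n * ⌊C₁ * (D : ℝ) ^ (ε / 3)⌋₊ ^ 2 *
      A ^ (n - 1) * T ^ (μ + N)) * (E + 1) ^ D.primeFactors.card :=
    calc _ ≤ n * (univ.image f).card * (c * ∏ p ∈ P, p ^ D.factorization p) := by gcongr
      _ = n * c * ((univ.image f).card * ∏ p ∈ P, p ^ D.factorization p) := by ring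
      _ ≤ n * c * ((40 * 72 ^ 6 * 4 ^ n * ⌊C₁ * (D : ℝ) ^ (ε / 3)⌋₊ ^ 2 * T ^ μ *
          (A ^ (n - 1) * T ^ N)) * (E + 1) ^ D.primeFactors.card) :=
        Nat.mul_le_mul_left _ (h2.trans (Nat.mul_le_mul_left _ h3))
      _ = _ := by ring
  have hD0 : (0 : ℝ) < D := by exact_mod_cast hD
  have h5 : (⌊C₁ * (D : ℝ) ^ (ε / 3)⌋₊ : ℝ) ≤ C₁ * (D : ℝ) ^ (ε / 3) := Nat.floor_le (by positivity)
  have h6 := h₂ D (by omega)
  have h7 := hTN (μ + N)
  have hn' : (2 : ℝ) ≤ n := by exact_mod_cast hn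
  have h8 : ((μ + N : ℕ) : ℝ) / (2 * n - 2 : ℕ) = ((n : ℝ) - 2) / 4 + μ / (2 * n - 2) + 1 := by
    rw [Nat.cast_add, hN, sum_eq n (by omega), Nat.cast_sub (by omega)]
    push_cast
    have : (n - 1 : ℝ) ≠ 0 := by linarith
    rw [show (2 * n - 2 : ℝ) = 2 * (n - 1) by ring]
    field_simp
    ring
  rw [h8] at h7
  refine le_of_mul_le_mul_right ?_ hD0
  have h9 : ((Fintype.card ι * D : ℕ) : ℝ) ≤ _ := Nat.cast_le.2 h4
  push_cast at h9 h6
  refine h9.trans ?_
  calc _ ≤ (n : ℝ) * c * (40 * 72 ^ 6 * 4 ^ n * (C₁ * (D : ℝ) ^ (ε / 3)) ^ 2 * A ^ (n - 1) *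
        (2 ^ (μ + N) * (D : ℝ) ^ (((n : ℝ) - 2) / 4 + μ / (2 * n - 2) + 1))) *
        (C₂ * (D : ℝ) ^ (ε / 3)) := by
        gcongr
        norm_num
    _ = _ := by
      have : (D : ℝ) ^ (((n : ℝ) - 2) / 4 + μ / (2 * n - 2) + ε) =
          (D : ℝ) ^ (((n : ℝ) - 2) / 4 + μ / (2 * n - 2)) * ((D : ℝ) ^ (ε / 3)) ^ 3 := by
        rw [Real.rpow_add hD0, ← Real.rpow_natCast, ← Real.rpow_mul hD0.le]
        norm_num
      rw [this, Real.rpow_add_one hD0.ne']
      ring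

end Pool.Agent.NF76
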